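import Pool.Agent.Y30.AB.Nu
import Pool.Agent.W472.AC.Siegel

/-!
# Small solutions
-/

set_option autoImplicit false

namespace Pool.Agent.Y30.AB

open Polynomial Finset

lemma coeff_prod_eq {R : Type} [CommRing R] (P t : R[X]) (N n : ℕ) (hN : P.natDegree < N) :
    (P * t).coeff n = ∑ i ∈ range N, P.coeff i * (X ^ i * t).coeff n := by
  conv_lhs => rw [P.as_sum_range' N hN]
  rw [Finset.sum_mul, finsetSum_coeff]
  refine Finset.sum_congr rfl fun i _ => ?_
  rw [← C_mul_X_pow_eq_monomial, mul_assoc, coeff_C_mul]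

/-- from complex to rational coefficients -/
lemma rational (k L m : ℕ) (s : ℤ[X]) (H : ℕ → ℂ[X]) (hH : ∃ j ≤ k, H j ≠ 0)
    (hdeg : ∀ j ≤ k, (H j).natDegree ≤ m)
    (hdvd : X ^ L ∣ ∑ j ∈ range (k + 1), H j * (s.map (Int.castRingHom ℂ)) ^ j) :
    ∃ Q : ℕ → ℚ[X], (∃ j ≤ k, Q j ≠ 0) ∧ (∀ j, (Q j).natDegree ≤ m) ∧
      X ^ L ∣ ∑ j ∈ range (k + 1), Q j * (s.map (Int.castRingHom ℚ)) ^ j := by
  obtain ⟨j₀, hj₀, hne⟩ := hH
  have hlc : (H j₀).leadingCoeff ≠ 0 := leadingCoeff_ne_zero.2 hne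
  obtain ⟨φ, hφ⟩ : ∃ φ : Module.Dual ℚ ℂ, φ (H j₀).leadingCoeff ≠ 0 := by
    by_contra hcon
    push Not at hcon
    exact hlc ((Module.forall_dual_apply_eq_zero_iff ℚ _).1 hcon)
  obtain ⟨Q, hQ⟩ : ∃ Q : ℕ → ℚ[X], Q = fun j => ∑ i ∈ range (m + 1), C (φ ((H j).coeff i)) * X ^ i :=
    ⟨_, rfl⟩
  have hcoef : ∀ j i, (Q j).coeff i = if i < m + 1 then φ ((H j).coeff i) else 0 := by
    intro j i
    rw [hQ]
    simp only [finsetSum_coeff, coeff_C_mul_X_pow]
    rw [Finset.sum_ite_eq (range (m + 1)) i (fun i => φ ((H j).coeff i))]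
    simp [mem_range]
  have hcoef' : ∀ j ≤ k, ∀ i, (Q j).coeff i = φ ((H j).coeff i) := by
    intro j hj i
    rw [hcoef]
    split_ifs with h
    · rfl
    · rw [coeff_eq_zero_of_natDegree_lt (lt_of_le_of_lt (hdeg j hj) (by omega)), map_zero]
  refine ⟨Q, ⟨j₀, hj₀, fun h => hφ ?_⟩, fun j => ?_, ?_⟩
  · have h1 := hcoef' j₀ hj₀ (H j₀).natDegree
    rw [h, coeff_zero] at h1
    exact h1.symm
  · rw [natDegree_le_iff_coeff_eq_zero]
    intro i hi
    rw [hcoef, if_neg (by omega)]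
  · rw [X_pow_dvd_iff] at hdvd ⊢
    intro n hn
    have h1 := hdvd n hn
    have h2 : (∑ j ∈ range (k + 1), Q j * (s.map (Int.castRingHom ℚ)) ^ j).coeff n =
        φ ((∑ j ∈ range (k + 1), H j * (s.map (Int.castRingHom ℂ)) ^ j).coeff n) := by
      rw [finsetSum_coeff, finsetSum_coeff, map_sum]
      refine Finset.sum_congr rfl fun j hj => ?_
      rw [mem_range] at hj
      rw [coeff_mul, coeff_mul, map_sum]
      refine Finset.sum_congr rfl fun y _ => ?_
      rw [hcoef' j (by omega), ← Polynomial.map_pow, ← Polynomial.map_pow, coeff_map, coeff_map,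
        eq_intCast, eq_intCast]
      have h3 : (H j).coeff y.1 * (((s ^ j).coeff y.2 : ℤ) : ℂ) =
          ((s ^ j).coeff y.2 : ℤ) • (H j).coeff y.1 := by
        rw [zsmul_eq_mul]
        ring
      rw [h3, map_zsmul, zsmul_eq_mul]
      ring
    rw [h2, h1, map_zero]

/-- **Small solutions.** -/
theorem small (k L m U : ℕ) (hU : 1 ≤ U) (s : ℤ[X]) (hs : ∀ j ≤ k, nu 1 s ^ j ≤ U)
    (H : ℕ → ℂ[X]) (hH : ∃ j ≤ k, H j ≠ 0) (hdeg : ∀ j ≤ k, (H j).natDegree ≤ m)
    (hdvd : X ^ L ∣ ∑ j ∈ range (k + 1), H j * (s.map (Int.castRingHom ℂ)) ^ j) :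
    ∃ G : ℕ → ℤ[X], (∃ j ≤ k, G j ≠ 0) ∧ (∀ j, (G j).natDegree ≤ 2 * m + 1) ∧
      (∀ j i, |(G j).coeff i| ≤ (((k + 1) * (2 * m + 2) * U) ^ (2 * (k + 1)) : ℕ)) ∧
      X ^ L ∣ ∑ j ∈ range (k + 1), G j * s ^ j := by
  classical
  obtain ⟨Q, ⟨j₀, hj₀, hQ0⟩, hQdeg, hQdvd⟩ := rational k L m s H hH hdeg hdvd
  -- the polynomials `g`
  obtain ⟨gp, hgp⟩ : ∃ gp : (Fin (m + 2) → ℚ) → ℚ[X], gp = fun g => ∑ l : Fin (m + 2), C (g l) * X ^ (l : ℕ) :=
    ⟨_, rfl⟩
  have hgpadd : ∀ g g', gp (g + g') = gp g + gp g' := by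
    intro g g'
    rw [hgp]
    simp only [Pi.add_apply, C_add, add_mul, Finset.sum_add_distrib]
  have hgpsmul : ∀ (c : ℚ) g, gp (c • g) = C c * gp g := by
    intro c g
    rw [hgp]
    simp only [Pi.smul_apply, smul_eq_mul, C_mul, Finset.mul_sum, mul_assoc]
  have hgpcoef : ∀ g (l : Fin (m + 2)), (gp g).coeff l = g l := by
    intro g l
    rw [hgp]
    simp only [finsetSum_coeff, coeff_C_mul_X_pow]
    rw [Finset.sum_eq_single l]
    · simp
    · intro b _ hb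
      rw [if_neg]
      intro h
      exact hb (Fin.ext h.symm)
    · simp
  have hgpdeg : ∀ g, (gp g).natDegree ≤ m + 1 := by
    intro g
    rw [hgp]
    refine natDegree_sum_le_of_forall_le _ _ fun l _ => ?_
    refine (natDegree_C_mul_X_pow_le _ _).trans ?_
    have := l.2
    omega
  let f : (Fin (m + 2) → ℚ) →ₗ[ℚ] (Fin (k + 1) × Fin (2 * m + 2) → ℚ) :=
    { toFun := fun g y => (gp g * Q y.1).coeff y.2
      map_add' := fun g g' => by
        funext y
        simp only [Pi.add_apply]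
        rw [hgpadd, add_mul, coeff_add]
      map_smul' := fun c g => by
        funext y
        simp only [Pi.smul_apply, RingHom.id_apply, smul_eq_mul]
        rw [hgpsmul, mul_assoc, coeff_C_mul] }
  have hfapp : ∀ g y, f g y = (gp g * Q y.1).coeff y.2 := fun g y => rfl
  have hdegprod : ∀ g j, (gp g * Q j).natDegree < 2 * m + 2 := by
    intro g j
    have h1 := natDegree_mul_le (p := gp g) (q := Q j)
    have h2 := hgpdeg g
    have h3 := hQdeg j
    omega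
  have hinj : Function.Injective f := by
    rw [← LinearMap.ker_eq_bot, LinearMap.ker_eq_bot']
    intro g hg
    have h1 : gp g * Q j₀ = 0 := by
      ext i
      rw [coeff_zero]
      by_cases hi : i < 2 * m + 2
      · have h2 := congrFun hg (⟨j₀, by omega⟩, ⟨i, hi⟩)
        rw [hfapp] at h2
        exact h2
      · exact coeff_eq_zero_of_natDegree_lt (lt_of_lt_of_le (hdegprod g j₀) (by omega))
    have h2 : gp g = 0 := (mul_eq_zero.1 h1).resolve_right hQ0
    funext l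
    rw [← hgpcoef g l, h2, coeff_zero]
    rfl
  obtain ⟨A, hA⟩ : ∃ A : Matrix (Fin L) (Fin (k + 1) × Fin (2 * m + 2)) ℤ,
    A = fun n y => (X ^ (y.2 : ℕ) * s ^ (y.1 : ℕ)).coeff (n : ℕ) := ⟨_, rfl⟩
  have hnuX : ∀ i : ℕ, nu 1 ((X : ℤ[X]) ^ i) ≤ 1 := by
    intro i
    have h1 : nu 1 ((X : ℤ[X])) ≤ 1 := by
      unfold nu
      have h2 : ab X = X := by
        ext n
        rw [coeff_ab, coeff_X, coeff_X]
        split_ifs <;> simp
      rw [h2, eval_X]
    exact (nu_pow zero_le_one _ _).trans (pow_le_one₀ (nu_nonneg zero_le_one _) h1)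
  have hAb : ∀ n y, |A n y| ≤ (U : ℤ) := by
    intro n y
    have h1 := coeff_le_nu (R := 1) zero_le_one (X ^ (y.2 : ℕ) * s ^ (y.1 : ℕ)) (n : ℕ)
    rw [one_pow, mul_one] at h1
    have h2 := nu_mul (R := 1) zero_le_one (X ^ (y.2 : ℕ)) (s ^ (y.1 : ℕ))
    have h3 := nu_pow (R := 1) zero_le_one s (y.1 : ℕ)
    have h4 := hs (y.1 : ℕ) (by have := y.1.2; omega)
    have h5 := hnuX (y.2 : ℕ)
    have h6 := nu_nonneg (R := 1) zero_le_one (s ^ (y.1 : ℕ))
    have h7 : |(A n y : ℝ)| ≤ U := by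
      rw [hA]
      calc |(((X ^ (y.2 : ℕ) * s ^ (y.1 : ℕ)).coeff (n : ℕ) : ℤ) : ℝ)| ≤ _ := h1
        _ ≤ nu 1 (X ^ (y.2 : ℕ)) * nu 1 (s ^ (y.1 : ℕ)) := h2
        _ ≤ 1 * nu 1 (s ^ (y.1 : ℕ)) := mul_le_mul_of_nonneg_right h5 h6
        _ ≤ U := by linarith
    rw [← Int.cast_abs] at h7
    exact_mod_cast h7
  have hker : ∀ g, (A.map (Int.cast : ℤ → ℚ)).mulVec (f g) = 0 := by
    intro g
    funext n
    rw [Pi.zero_apply, Matrix.mulVec, dotProduct]
    have h1 : (gp g * ∑ j ∈ range (k + 1), Q j * (s.map (Int.castRingHom ℚ)) ^ j).coeff (n : ℕ) = 0 :=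
      X_pow_dvd_iff.1 (hQdvd.mul_left (gp g)) n n.2
    rw [← h1, Fintype.sum_prod_type, Finset.mul_sum, finsetSum_coeff, Finset.sum_range]
    refine Finset.sum_congr rfl fun j _ => ?_
    rw [← mul_assoc, coeff_prod_eq _ _ (2 * m + 2) _ (hdegprod g j), Finset.sum_range]
    refine Finset.sum_congr rfl fun i _ => ?_
    rw [Matrix.map_apply, hA, hfapp, mul_comm]
    congr 1
    have h2 : (X ^ (i : ℕ) * (s.map (Int.castRingHom ℚ)) ^ (j : ℕ) : ℚ[X]) =
        (X ^ (i : ℕ) * s ^ (j : ℕ)).map (Int.castRingHom ℚ) := by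
      rw [Polynomial.map_mul, Polynomial.map_pow, Polynomial.map_pow, map_X]
    rw [h2, coeff_map, eq_intCast]
  obtain ⟨v, hv0, hv1, hv2⟩ := Pool.Agent.W472.AC.siegel_rank A U hU hAb (m + 2) (2 * (k + 1))
    (by omega) (by
      rw [Fintype.card_prod, Fintype.card_fin, Fintype.card_fin]
      nlinarith) f hinj hker
  rw [Fintype.card_prod, Fintype.card_fin, Fintype.card_fin] at hv2
  obtain ⟨G, hG⟩ : ∃ G : ℕ → ℤ[X], G = fun j => if h : j < k + 1 then
    ∑ i : Fin (2 * m + 2), C (v (⟨j, h⟩, i)) * X ^ (i : ℕ) else 0 := ⟨_, rfl⟩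
  have hGcoef : ∀ (j : Fin (k + 1)) (i : Fin (2 * m + 2)), (G j).coeff i = v (j, i) := by
    intro j i
    rw [hG]
    simp only [j.2, dif_pos, finsetSum_coeff, coeff_C_mul_X_pow]
    rw [Finset.sum_eq_single i]
    · simp
    · intro b _ hb
      rw [if_neg]
      intro h
      exact hb (Fin.ext h.symm)
    · simp
  have hGdeg : ∀ j, (G j).natDegree ≤ 2 * m + 1 := by
    intro j
    rw [hG]
    dsimp only
    split_ifs with h
    · refine natDegree_sum_le_of_forall_le _ _ fun l _ => ?_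
      refine (natDegree_C_mul_X_pow_le _ _).trans ?_
      have := l.2
      omega
    · simp
  refine ⟨G, ?_, hGdeg, ?_, ?_⟩
  · by_contra hcon
    push Not at hcon
    apply hv0
    funext y
    have h1 := hcon y.1 (by have := y.1.2; omega)
    rw [← hGcoef y.1 y.2, h1, coeff_zero]
    rfl
  · intro j i
    by_cases hj : j < k + 1
    · by_cases hi : i < 2 * m + 2
      · have h1 := hGcoef ⟨j, hj⟩ ⟨i, hi⟩
        simp only at h1
        rw [h1]
        exact hv2 _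
      · rw [coeff_eq_zero_of_natDegree_lt (lt_of_le_of_lt (hGdeg j) (by omega)), abs_zero]
        positivity
    · rw [hG]
      simp only [hj, dif_neg, not_false_eq_true, coeff_zero, abs_zero]
      positivity
  · rw [X_pow_dvd_iff]
    intro n hn
    have h1 := congrFun hv1 ⟨n, hn⟩
    rw [Pi.zero_apply, Matrix.mulVec, dotProduct, Fintype.sum_prod_type] at h1
    rw [← h1, finsetSum_coeff, Finset.sum_range]
    refine Finset.sum_congr rfl fun j _ => ?_
    rw [coeff_prod_eq _ _ (2 * m + 2) _ (by have := hGdeg j; omega), Finset.sum_range]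
    refine Finset.sum_congr rfl fun i _ => ?_
    rw [hA, hGcoef]
    ring

end Pool.Agent.Y30.AB
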