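import Pool.Agent.Y30.AB.Red
import Pool.Agent.Y30.AB.Sieg

/-!
# The core theorem
-/

set_option autoImplicit false

namespace Pool.Agent.Y30.AB

open Polynomial Finset
open Pool.Agent.TH456.TM (MeasT exists_irr_factor)

lemma num (lam A A' : ℝ) (hl : 0 < lam) (hA' : 0 ≤ A') : ∃ C : ℕ, 1 ≤ C ∧
    ∀ L m : ℕ, (L : ℝ) * lam ≤ A * (m + 1) + A' * Real.log (L + 1) → L ≤ C * (m + 1) := by
  obtain ⟨δ, hδ⟩ : ∃ δ : ℝ, δ = lam / (2 * (A' + 1)) := ⟨_, rfl⟩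
  have hδ0 : 0 < δ := by rw [hδ]; positivity
  obtain ⟨K, hK⟩ : ∃ K : ℝ, K = (A + A' * (δ + |Real.log δ|)) / (lam / 2) := ⟨_, rfl⟩
  refine ⟨⌈K⌉₊ + 1, by omega, fun L m h => ?_⟩
  have hL0 : (0 : ℝ) ≤ L := Nat.cast_nonneg _
  have hm0 : (0 : ℝ) ≤ m := Nat.cast_nonneg _
  have h1 : Real.log ((L : ℝ) + 1) ≤ δ * (L + 1) + |Real.log δ| := by
    have h2 := Real.log_le_sub_one_of_pos (show 0 < δ * ((L : ℝ) + 1) by positivity)
    rw [Real.log_mul hδ0.ne' (by positivity)] at h2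
    have h3 := neg_abs_le (Real.log δ)
    linarith
  have h4 : A' * δ ≤ lam / 2 := by
    rw [hδ, mul_div_assoc', div_le_iff₀ (by positivity)]
    nlinarith
  have h5 : (L : ℝ) * lam ≤ A * (m + 1) + A' * (δ * (L + 1) + |Real.log δ|) := by
    nlinarith [mul_le_mul_of_nonneg_left h1 hA']
  have h6 : (L : ℝ) * (lam / 2) ≤ (A + A' * (δ + |Real.log δ|)) * (m + 1) := by
    have h7 : 0 ≤ A' * (δ + |Real.log δ|) * m := by positivity
    nlinarith [mul_le_mul_of_nonneg_right h4 hL0]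
  have h8 : (L : ℝ) ≤ K * (m + 1) := by
    rw [hK, div_mul_eq_mul_div, le_div_iff₀ (by positivity)]
    exact h6
  have h9 : (L : ℝ) ≤ ((⌈K⌉₊ + 1 : ℕ) : ℝ) * ((m + 1 : ℕ) : ℝ) := by
    push_cast
    have h10 := Nat.le_ceil K
    nlinarith
  exact_mod_cast h9

/-- the truncated generating series with integer coefficients -/
noncomputable def sZ (a : ℕ → ℤ) (L : ℕ) : ℤ[X] := ∑ n ∈ range L, C (a n) * X ^ n

lemma aeval_sZ (a : ℕ → ℤ) (L : ℕ) (τ : ℂ) :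
    aeval τ (sZ a L) = ∑ n ∈ range L, (a n : ℂ) * τ ^ n := by
  unfold sZ
  simp

lemma nu_sZ (a : ℕ → ℤ) (B L : ℕ) (ha : ∀ n, |a n| ≤ B * ((n : ℤ) + 1) ^ B) :
    nu 1 (sZ a L) ≤ B * ((L : ℝ) + 1) ^ (B + 1) := by
  unfold sZ
  refine (nu_sum zero_le_one _ _).trans ?_
  have h1 : ∀ n ∈ range L, nu 1 (C (a n) * X ^ n) ≤ B * ((L : ℝ) + 1) ^ B := by
    intro n hn
    rw [mem_range] at hn
    rw [nu_C_mul]
    have h2 : nu 1 ((X : ℤ[X]) ^ n) ≤ 1 := by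
      have h1 : nu 1 ((X : ℤ[X])) ≤ 1 := by
        unfold nu
        have h2 : ab X = X := by
          ext n
          rw [coeff_ab, coeff_X, coeff_X]
          split_ifs <;> simp
        rw [h2, eval_X]
      exact (nu_pow zero_le_one _ _).trans (pow_le_one₀ (nu_nonneg zero_le_one _) h1)
    have h3 : |(a n : ℝ)| ≤ B * ((n : ℝ) + 1) ^ B := by
      rw [← Int.cast_abs]
      exact_mod_cast ha n
    have h4 : ((n : ℝ) + 1) ≤ L + 1 := by
      have : (n : ℝ) ≤ L := by exact_mod_cast hn.le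
      linarith
    calc |(a n : ℝ)| * nu 1 (X ^ n) ≤ (B * ((n : ℝ) + 1) ^ B) * 1 := by
          exact mul_le_mul h3 h2 (nu_nonneg zero_le_one _) (by positivity)
      _ ≤ B * ((L : ℝ) + 1) ^ B := by
          rw [mul_one]
          gcongr
  refine (Finset.sum_le_sum h1).trans ?_
  rw [Finset.sum_const, card_range, nsmul_eq_mul, pow_succ]
  have : (0 : ℝ) ≤ B * ((L : ℝ) + 1) ^ B := by positivity
  nlinarith

/-- division by the highest power of an irreducible polynomial -/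
lemma divide (p : ℤ[X]) (hp : Irreducible p) (hdeg : p.natDegree ≠ 0) (k M : ℕ) (G : ℕ → ℤ[X])
    (hG : ∃ j ≤ k, G j ≠ 0) (hM : ∀ j, (G j).natDegree ≤ M) :
    ∃ (e : ℕ) (G' : ℕ → ℤ[X]), e ≤ M ∧ (∀ j ≤ k, G j = p ^ e * G' j) ∧ (∀ j, k < j → G' j = 0) ∧
      (∃ j ≤ k, ¬ p ∣ G' j) := by
  classical
  have hp0 := hp.ne_zero
  obtain ⟨j₀, hj₀, hne⟩ := hG
  have hbig : ¬ ∀ j ≤ k, p ^ (M + 1) ∣ G j := by
    intro h
    have h1 := natDegree_le_of_dvd (h j₀ hj₀) hne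
    rw [natDegree_pow] at h1
    have h2 := hM j₀
    have h3 : 1 ≤ p.natDegree := Nat.one_le_iff_ne_zero.2 hdeg
    nlinarith
  obtain ⟨e, he⟩ : ∃ e, e = Nat.findGreatest (fun e => ∀ j ≤ k, p ^ e ∣ G j) M := ⟨_, rfl⟩
  have he1 : ∀ j ≤ k, p ^ e ∣ G j := by
    rw [he]
    exact Nat.findGreatest_spec (P := fun e => ∀ j ≤ k, p ^ e ∣ G j) (Nat.zero_le M)
      (fun j _ => by simp)
  have heM : e ≤ M := by
    rw [he]
    exact Nat.findGreatest_le M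
  have he2 : ¬ ∀ j ≤ k, p ^ (e + 1) ∣ G j := by
    rcases Nat.lt_or_ge e M with h | h
    · exact Nat.findGreatest_is_greatest (P := fun e => ∀ j ≤ k, p ^ e ∣ G j) (n := M)
        (k := e + 1) (by rw [← he]; omega) (by omega)
    · have : e = M := by omega
      rw [this]
      exact hbig
  have hex : ∀ j, ∃ g : ℤ[X], (j ≤ k → G j = p ^ e * g) ∧ (k < j → g = 0) := by
    intro j
    by_cases hj : j ≤ k
    · obtain ⟨g, hg⟩ := he1 j hj
      exact ⟨g, fun _ => hg, fun h => by omega⟩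
    · exact ⟨0, fun h => absurd h hj, fun _ => rfl⟩
  choose G' hG1 hG2 using hex
  refine ⟨e, G', heM, hG1, hG2, ?_⟩
  by_contra hcon
  push Not at hcon
  apply he2
  intro j hj
  obtain ⟨g, hg⟩ := hcon j hj
  rw [hG1 j hj, hg, pow_succ]
  exact mul_dvd_mul_left _ (Dvd.intro _ rfl)

/-- the final inequality, logarithmic form -/
lemma logs (k B m L M U : ℕ) (c κ S ρ K₃ T T₁ P : ℝ) (hM : M = 2 * m + 1)
    (hU : U = (B * (L + 1) ^ (B + 1) + 1) ^ k) (hc : 0 < c) (hκ : 0 < κ) (hS : 1 ≤ S)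
    (hρ0 : 0 < ρ) (hK₃1 : 1 ≤ K₃) (hP1 : 1 ≤ P)
    (hT₁ : T₁ = ((((k + 1) * (2 * m + 2) * U) ^ (2 * (k + 1)) : ℕ) : ℝ))
    (hT : T = (8 * P) ^ M * T₁)
    (hmain : c * (S ^ M * T) ^ (-κ) ≤ S ^ M * (ρ ^ L * ((M + 1) * T * U * K₃))) :
    (L : ℝ) * -Real.log ρ ≤
      (|Real.log c| + κ * (2 * Real.log S + (2 * Real.log (8 * P) + 2 * (k + 1) * (2 * (k + 1) +
        k * Real.log ((B : ℝ) + 1)))) + 2 * Real.log S + 2 +
        (2 * Real.log (8 * P) + 2 * (k + 1) * (2 * (k + 1) + k * Real.log ((B : ℝ) + 1))) +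
        k * Real.log ((B : ℝ) + 1) + Real.log K₃) * (m + 1) +
      ((κ + 1) * (2 * (k + 1) * (k * ((B : ℝ) + 1))) + k * ((B : ℝ) + 1)) *
        Real.log (L + 1) := by
  have hk0 : (0 : ℝ) ≤ k := Nat.cast_nonneg k
  have hB0 : (0 : ℝ) ≤ B := Nat.cast_nonneg B
  have hm0 : (0 : ℝ) ≤ m := Nat.cast_nonneg m
  have hL0 : (0 : ℝ) ≤ L := Nat.cast_nonneg L
  have hlS : 0 ≤ Real.log S := Real.log_nonneg hS
  have hlP : 0 ≤ Real.log (8 * P) := Real.log_nonneg (by linarith)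
  have hlK : 0 ≤ Real.log K₃ := Real.log_nonneg hK₃1
  have hlB : 0 ≤ Real.log ((B : ℝ) + 1) := Real.log_nonneg (by linarith)
  obtain ⟨E₁, hE₁⟩ : ∃ E₁ : ℝ, E₁ = k * Real.log ((B : ℝ) + 1) := ⟨_, rfl⟩
  obtain ⟨E₂, hE₂⟩ : ∃ E₂ : ℝ, E₂ = k * ((B : ℝ) + 1) := ⟨_, rfl⟩
  have hE₁0 : 0 ≤ E₁ := by rw [hE₁]; positivity
  have hE₂0 : 0 ≤ E₂ := by rw [hE₂]; positivity
  rw [← hE₁, ← hE₂]
  obtain ⟨F₁, hF₁⟩ : ∃ F₁ : ℝ, F₁ = 2 * Real.log (8 * P) + 2 * (k + 1) * (2 * (k + 1) + E₁) :=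
    ⟨_, rfl⟩
  have hF₁0 : 0 ≤ F₁ := by rw [hF₁]; positivity
  rw [← hF₁]
  have hU1 : 1 ≤ U := by rw [hU]; exact Nat.one_le_pow _ _ (by omega)
  have hUR0 : (0 : ℝ) < U := by exact_mod_cast hU1
  have hT₁1 : 1 ≤ T₁ := by
    rw [hT₁]
    exact_mod_cast Nat.one_le_pow _ _ (by positivity)
  have h8P : 1 ≤ (8 * P) ^ M := one_le_pow₀ (by linarith)
  have hT0 : 0 < T := by rw [hT]; positivity
  have hS0 : 0 < S := by linarith
  have hK₃0 : 0 < K₃ := by linarith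
  have hM0 : (0 : ℝ) ≤ M := Nat.cast_nonneg M
  have hlL : 0 ≤ Real.log ((L : ℝ) + 1) := Real.log_nonneg (by linarith)
  have hlog := Real.log_le_log (by positivity) hmain
  rw [Real.log_mul hc.ne' (by positivity), Real.log_rpow (by positivity),
    Real.log_mul (by positivity) hT0.ne', Real.log_pow,
    Real.log_mul (by positivity) (by positivity), Real.log_pow,
    Real.log_mul (by positivity) (by positivity), Real.log_pow,
    Real.log_mul (by positivity) hK₃0.ne', Real.log_mul (by positivity) hUR0.ne',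
    Real.log_mul (by positivity) hT0.ne'] at hlog
  have hMR : (M : ℝ) = 2 * m + 1 := by rw [hM]; push_cast; ring
  have hlogU : Real.log U ≤ E₁ + E₂ * Real.log (L + 1) := by
    have h1 : (U : ℝ) ≤ (((B : ℝ) + 1) * ((L : ℝ) + 1) ^ (B + 1)) ^ k := by
      rw [hU]
      push_cast
      apply pow_le_pow_left₀ (by positivity)
      have : (1 : ℝ) ≤ ((L : ℝ) + 1) ^ (B + 1) := one_le_pow₀ (by linarith)
      nlinarith
    have h2 := Real.log_le_log hUR0 h1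
    rw [Real.log_pow, Real.log_mul (by positivity) (by positivity), Real.log_pow] at h2
    refine h2.trans (le_of_eq ?_)
    rw [hE₁, hE₂]
    push_cast
    ring
  have hlogT₁ : Real.log T₁ ≤ 2 * (k + 1) * (2 * (k + 1) * (m + 1) + Real.log U) := by
    rw [hT₁]
    push_cast
    rw [Real.log_pow, Real.log_mul (by positivity) hUR0.ne']
    push_cast
    have h1 : Real.log (((k : ℝ) + 1) * (2 * m + 2)) ≤ 2 * (k + 1) * (m + 1) := by
      have h2 := Real.log_le_sub_one_of_pos (show 0 < ((k : ℝ) + 1) * (2 * m + 2) by positivity)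
      linarith
    gcongr
  have hlogT : Real.log T = M * Real.log (8 * P) + Real.log T₁ := by
    rw [hT, Real.log_mul (by positivity) (by linarith), Real.log_pow]
  have hlogM : Real.log ((M : ℝ) + 1) ≤ 2 * (m + 1) := by
    have h2 := Real.log_le_sub_one_of_pos (show 0 < (M : ℝ) + 1 by positivity)
    rw [hMR] at h2 ⊢
    linarith
  have hTfin : Real.log T ≤ F₁ * (m + 1) + 2 * (k + 1) * E₂ * Real.log (L + 1) := by
    rw [hlogT]
    have h1 : (M : ℝ) * Real.log (8 * P) ≤ 2 * Real.log (8 * P) * (m + 1) := by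
      rw [hMR]
      nlinarith
    have h3 : Real.log U ≤ E₁ * (m + 1) + E₂ * Real.log (L + 1) := by
      have := mul_nonneg hE₁0 hm0
      linarith
    have h2 : 2 * (k + 1) * (2 * (k + 1) * (m + 1) + Real.log U) ≤
        2 * (k + 1) * (2 * (k + 1) * (m + 1) + (E₁ * (m + 1) + E₂ * Real.log (L + 1))) := by
      gcongr
    rw [hF₁]
    have h4 : 2 * (k + 1) * (2 * (k + 1) * (m + 1) + (E₁ * (m + 1) + E₂ * Real.log (L + 1))) =
        2 * (k + 1) * (2 * (k + 1) + E₁) * (m + 1) + 2 * (k + 1) * E₂ * Real.log (L + 1) := by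
      ring
    linarith
  have hMS : (M : ℝ) * Real.log S ≤ 2 * Real.log S * (m + 1) := by
    rw [hMR]
    nlinarith
  have hneg : -Real.log c ≤ |Real.log c| * (m + 1) := by
    have h1 := neg_abs_le (Real.log c)
    have h2 := mul_nonneg (abs_nonneg (Real.log c)) hm0
    linarith
  have hK' : Real.log K₃ ≤ Real.log K₃ * (m + 1) := by
    have := mul_nonneg hlK hm0
    linarith
  have hU' : Real.log U ≤ E₁ * (m + 1) + E₂ * Real.log (L + 1) := by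
    have := mul_nonneg hE₁0 hm0
    linarith
  have hκT : κ * (M * Real.log S + Real.log T) ≤
      κ * (2 * Real.log S * (m + 1) + (F₁ * (m + 1) + 2 * (k + 1) * E₂ * Real.log (L + 1))) :=
    mul_le_mul_of_nonneg_left (by linarith) hκ.le
  have hgoal : (L : ℝ) * -Real.log ρ ≤ -Real.log c + κ * (M * Real.log S + Real.log T) +
      M * Real.log S + Real.log (M + 1) + Real.log T + Real.log U + Real.log K₃ := by
    clear hκT hU' hK' hneg hMS hTfin hlogM hlogT hlogT₁ hlogU hmain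
    linarith
  refine hgoal.trans ?_
  have hexp : (|Real.log c| + κ * (2 * Real.log S + F₁) + 2 * Real.log S + 2 + F₁ + E₁ +
      Real.log K₃) * (m + 1) + ((κ + 1) * (2 * (k + 1) * E₂) + E₂) * Real.log (L + 1) =
      |Real.log c| * (m + 1) +
      κ * (2 * Real.log S * (m + 1) + (F₁ * (m + 1) + 2 * (k + 1) * E₂ * Real.log (L + 1))) +
      2 * Real.log S * (m + 1) + 2 * (m + 1) +
      (F₁ * (m + 1) + 2 * (k + 1) * E₂ * Real.log (L + 1)) +
      (E₁ * (m + 1) + E₂ * Real.log (L + 1)) + Real.log K₃ * (m + 1) := by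
    ring
  rw [hexp]
  clear hlog hmain hlogT hlogT₁ hlogU
  linarith

/-- the upper bound for the value at `(τ, x)` -/
lemma upper (k L M U : ℕ) (x y τ : ℂ) (ρ K W T : ℝ) (s : ℤ[X]) (G' : ℕ → ℤ[X])
    (hy : y = aeval τ s) (hτ1 : ‖τ‖ < 1) (hτρ : ‖τ‖ ≤ ρ) (hρ0 : 0 < ρ) (hρ1 : ρ < 1) (hK : 1 ≤ K)
    (hW1 : 1 ≤ W) (hxW : ‖x‖ ≤ W) (hyW : ‖y‖ ≤ W) (hxy : ‖x - y‖ ≤ K * ρ ^ L) (hT0 : 0 ≤ T)
    (hU1 : 1 ≤ U) (hsU : ∀ j ≤ k, nu 1 s ^ j ≤ U) (hnuG : ∀ j, nu 1 (G' j) ≤ (M + 1) * T)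
    (hG'dvd : X ^ L ∣ ∑ j ∈ range (k + 1), G' j * s ^ j) :
    ‖∑ j ∈ range (k + 1), aeval τ (G' j) * x ^ j‖ ≤
      ρ ^ L * ((M + 1) * T * U * ((k + 1) * (1 + k * W ^ k * K))) := by
  have hUR : (1 : ℝ) ≤ U := by exact_mod_cast hU1
  have hρL0 : 0 < ρ ^ L := by positivity
  have hM0 : (0 : ℝ) ≤ M := Nat.cast_nonneg M
  have h1 : ∑ j ∈ range (k + 1), aeval τ (G' j) * x ^ j =
      aeval τ (∑ j ∈ range (k + 1), G' j * s ^ j) +
        ∑ j ∈ range (k + 1), aeval τ (G' j) * (x ^ j - y ^ j) := by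
    rw [map_sum, ← Finset.sum_add_distrib]
    refine Finset.sum_congr rfl fun j _ => ?_
    rw [map_mul, map_pow, ← hy]
    ring
  have h2 : ‖aeval τ (∑ j ∈ range (k + 1), G' j * s ^ j)‖ ≤
      ρ ^ L * ((k + 1) * ((M + 1) * T * U)) := by
    refine (eval_small _ L hG'dvd τ ρ hτρ hρ1.le).trans ?_
    refine mul_le_mul_of_nonneg_left ?_ hρL0.le
    refine (nu_sum zero_le_one _ _).trans ?_
    have h3 : ∀ j ∈ range (k + 1), nu 1 (G' j * s ^ j) ≤ (M + 1) * T * U := by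
      intro j hj
      rw [mem_range] at hj
      refine (nu_mul zero_le_one _ _).trans ?_
      have h4 := (nu_pow (R := 1) zero_le_one s j).trans (hsU j (by omega))
      exact mul_le_mul (hnuG j) h4 (nu_nonneg zero_le_one _) (by positivity)
    refine (Finset.sum_le_sum h3).trans ?_
    rw [Finset.sum_const, card_range, nsmul_eq_mul]
    push_cast
    exact le_rfl
  have h5 : ‖∑ j ∈ range (k + 1), aeval τ (G' j) * (x ^ j - y ^ j)‖ ≤
      (k + 1) * ((M + 1) * T * (k * W ^ k * (K * ρ ^ L))) := by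
    refine (norm_sum_le _ _).trans ?_
    have h3 : ∀ j ∈ range (k + 1), ‖aeval τ (G' j) * (x ^ j - y ^ j)‖ ≤
        (M + 1) * T * (k * W ^ k * (K * ρ ^ L)) := by
      intro j hj
      rw [mem_range] at hj
      rw [norm_mul]
      have h4 : ‖aeval τ (G' j)‖ ≤ (M + 1) * T :=
        (eval_le_nu _ τ hτ1.le).trans (hnuG j)
      have h6 := pow_sub x y W hW1 hxW hyW j
      have h7 : (j : ℝ) * W ^ j ≤ k * W ^ k := by
        have h8 : (j : ℝ) ≤ k := by exact_mod_cast (by omega : j ≤ k)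
        have h9 : W ^ j ≤ W ^ k := pow_le_pow_right₀ hW1 (by omega)
        exact mul_le_mul h8 h9 (by positivity) (by positivity)
      have h10 : ‖x ^ j - y ^ j‖ ≤ k * W ^ k * (K * ρ ^ L) :=
        h6.trans (mul_le_mul h7 hxy (norm_nonneg _) (by positivity))
      exact mul_le_mul h4 h10 (norm_nonneg _) (by positivity)
    refine (Finset.sum_le_sum h3).trans ?_
    rw [Finset.sum_const, card_range, nsmul_eq_mul]
    push_cast
    exact le_rfl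
  rw [h1]
  refine (norm_add_le _ _).trans ?_
  have h6 : (k + 1) * ((M + 1) * T * (k * W ^ k * (K * ρ ^ L))) ≤
      ρ ^ L * ((k + 1) * ((M + 1) * T * U) * (k * W ^ k * K)) := by
    have h7 : 0 ≤ ρ ^ L * ((k + 1) * ((M + 1) * T) * (k * W ^ k * K)) := by positivity
    calc (k + 1) * ((M + 1) * T * (k * W ^ k * (K * ρ ^ L)))
        = ρ ^ L * ((k + 1) * ((M + 1) * T) * (k * W ^ k * K)) * 1 := by ring
      _ ≤ ρ ^ L * ((k + 1) * ((M + 1) * T) * (k * W ^ k * K)) * U :=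
          mul_le_mul_of_nonneg_left hUR h7
      _ = _ := by ring
  calc _ ≤ ρ ^ L * ((k + 1) * ((M + 1) * T * U)) +
        ρ ^ L * ((k + 1) * ((M + 1) * T * U) * (k * W ^ k * K)) := by linarith
    _ = _ := by ring

/-- the heights after the division -/
lemma heights (p : ℤ[X]) (hp0 : p ≠ 0) (hpc : p.coeff 0 ≠ 0) (k M e : ℕ) (heM : e ≤ M) (T₁ : ℝ)
    (hT₁ : 1 ≤ T₁) (G G' : ℕ → ℤ[X]) (hGG' : ∀ j ≤ k, G j = p ^ e * G' j)
    (hG'0 : ∀ j, k < j → G' j = 0) (hGdeg : ∀ j, (G j).natDegree ≤ M)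
    (hG'deg : ∀ j, (G' j).natDegree ≤ M) (hGR : ∀ j i, |((G j).coeff i : ℝ)| ≤ T₁) (j i : ℕ) :
    |((G' j).coeff i : ℝ)| ≤ (8 * P0 p) ^ M * T₁ := by
  have hP1 := one_le_P0 p hp0
  have h8P : 1 ≤ (8 * P0 p) ^ M := one_le_pow₀ (by linarith)
  by_cases hj : j ≤ k
  · by_cases hi : i ≤ M
    · have hR0 : 0 < 1 / (2 * P0 p) := by positivity
      have hR1 : 1 / (2 * P0 p) ≤ 1 := by
        rw [div_le_one (by positivity)]
        linarith
      have h1 := nu_div_pow hR0.le p hpc (small_radius p hp0) e (G' j)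
      rw [← hGG' j hj] at h1
      have h2 := nu_le hR0.le hR1 (G j) M (hGdeg j) T₁ (hGR j)
      have h3 := coeff_le_nu hR0.le (G' j) i
      have h4 : (2 : ℝ) ^ e ≤ 2 ^ M := pow_le_pow_right₀ (by norm_num) heM
      have h5 : ((M : ℝ) + 1) ≤ 2 ^ M := by
        have := Nat.lt_two_pow_self (n := M)
        exact_mod_cast this
      have h6 : |((G' j).coeff i : ℝ)| * (1 / (2 * P0 p)) ^ i ≤ 2 ^ M * (2 ^ M * T₁) := by
        calc |((G' j).coeff i : ℝ)| * (1 / (2 * P0 p)) ^ i ≤ _ := h3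
          _ ≤ 2 ^ e * nu (1 / (2 * P0 p)) (G j) := h1
          _ ≤ 2 ^ M * ((M + 1) * T₁) :=
              mul_le_mul h4 h2 (nu_nonneg hR0.le (G j)) (by positivity)
          _ ≤ 2 ^ M * (2 ^ M * T₁) := by gcongr
      have h7 : |((G' j).coeff i : ℝ)| =
          |((G' j).coeff i : ℝ)| * (1 / (2 * P0 p)) ^ i * (2 * P0 p) ^ i := by
        rw [mul_assoc, ← mul_pow, one_div_mul_cancel (by positivity), one_pow, mul_one]
      have h8 : (8 * P0 p) ^ M = 2 ^ M * (2 ^ M * (2 * P0 p) ^ M) := by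
        rw [← mul_pow, ← mul_pow]
        congr 1
        ring
      have h9 : (2 * P0 p) ^ i ≤ (2 * P0 p) ^ M := pow_le_pow_right₀ (by linarith) hi
      rw [h7, h8]
      calc |((G' j).coeff i : ℝ)| * (1 / (2 * P0 p)) ^ i * (2 * P0 p) ^ i
          ≤ 2 ^ M * (2 ^ M * T₁) * (2 * P0 p) ^ M :=
            mul_le_mul h6 h9 (by positivity) (by positivity)
        _ = _ := by ring
    · rw [coeff_eq_zero_of_natDegree_lt (lt_of_le_of_lt (hG'deg j) (by omega)), Int.cast_zero,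
        abs_zero]
      positivity
  · rw [hG'0 j (by omega), coeff_zero, Int.cast_zero, abs_zero]
    positivity

/-- **Core theorem.** -/
theorem core (x : ℂ) (hx : MeasT x) (τ : ℂ) (hτ0 : τ ≠ 0) (hτ1 : ‖τ‖ < 1)
    (hτa : ∃ P : ℤ[X], P ≠ 0 ∧ aeval τ P = 0) (k B : ℕ) :
    ∃ C : ℕ, 1 ≤ C ∧ ∀ a : ℕ → ℤ, (∀ n, |a n| ≤ B * ((n : ℤ) + 1) ^ B) →
      HasSum (fun n => (a n : ℂ) * τ ^ n) x → ∀ (L m : ℕ) (H : ℕ → ℂ[X]), (∃ j ≤ k, H j ≠ 0) →
      (∀ j ≤ k, (H j).natDegree ≤ m) →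
      X ^ L ∣ ∑ j ∈ range (k + 1), H j * ((sZ a L).map (Int.castRingHom ℂ)) ^ j →
      L ≤ C * (m + 1) := by
  obtain ⟨P, hP, hPτ⟩ := hτa
  obtain ⟨p, hp, hpτ⟩ := exists_irr_factor τ P hP hPτ
  have hp0 : p ≠ 0 := hp.ne_zero
  have hdeg : p.natDegree ≠ 0 := by
    intro h0
    rw [eq_C_of_natDegree_eq_zero h0, aeval_C, eq_intCast, Int.cast_eq_zero] at hpτ
    exact hp0 (by rw [eq_C_of_natDegree_eq_zero h0, hpτ, C_0])
  have hpc : p.coeff 0 ≠ 0 := by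
    intro h0
    have h1 : X ∣ p := X_dvd_iff.2 h0
    obtain ⟨q, hq⟩ := h1
    rcases hp.isUnit_or_isUnit hq with h | h
    · exact not_isUnit_X h
    · rw [hq, map_mul, aeval_X] at hpτ
      have h2 : aeval τ q ≠ 0 := (h.map (aeval τ : ℤ[X] →ₐ[ℤ] ℂ)).ne_zero
      exact (mul_ne_zero hτ0 h2) hpτ
  have hP1 := one_le_P0 p hp0
  obtain ⟨κ, c, S, hκ, hc, hS, hlow⟩ := lower x hx p hp τ hpτ k
  obtain ⟨ρ, K, hτρ, hρ0, hρ1, hK, htail⟩ := tail τ hτ1 B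
  obtain ⟨W, hW⟩ : ∃ W : ℝ, W = ‖x‖ + K + 1 := ⟨_, rfl⟩
  have hx0 := norm_nonneg x
  have hW1 : 1 ≤ W := by rw [hW]; linarith
  have hxW : ‖x‖ ≤ W := by rw [hW]; linarith
  have hK₃1 : 1 ≤ ((k : ℝ) + 1) * (1 + k * W ^ k * K) := by
    have h1 : (0 : ℝ) ≤ k * W ^ k * K := by positivity
    have h2 : (0 : ℝ) ≤ k := Nat.cast_nonneg k
    nlinarith
  have hlam : 0 < -Real.log ρ := by
    have := Real.log_neg hρ0 hρ1
    linarith
  have hB0 : (0 : ℝ) ≤ B := Nat.cast_nonneg B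
  have hk0 : (0 : ℝ) ≤ k := Nat.cast_nonneg k
  obtain ⟨C, hC1, hC⟩ := num (-Real.log ρ) _
    ((κ + 1) * (2 * (k + 1) * (k * ((B : ℝ) + 1))) + k * ((B : ℝ) + 1)) hlam (by positivity)
  refine ⟨C, hC1, fun a ha hsum L m H hH hHdeg hdvd => ?_⟩
  apply hC
  -- the small solution
  obtain ⟨s, hs⟩ : ∃ s, s = sZ a L := ⟨_, rfl⟩
  obtain ⟨U, hU⟩ : ∃ U : ℕ, U = (B * (L + 1) ^ (B + 1) + 1) ^ k := ⟨_, rfl⟩
  have hU1 : 1 ≤ U := by rw [hU]; exact Nat.one_le_pow _ _ (by omega)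
  have hsU : ∀ j ≤ k, nu 1 s ^ j ≤ U := by
    intro j hj
    have h1 : nu 1 s ≤ B * ((L : ℝ) + 1) ^ (B + 1) := by rw [hs]; exact nu_sZ a B L ha
    have h2 := nu_nonneg (R := 1) zero_le_one s
    calc nu 1 s ^ j ≤ (B * ((L : ℝ) + 1) ^ (B + 1) + 1) ^ j :=
          pow_le_pow_left₀ h2 (by linarith) j
      _ ≤ (B * ((L : ℝ) + 1) ^ (B + 1) + 1) ^ k := by
          apply pow_le_pow_right₀ _ hj
          have : 0 ≤ B * ((L : ℝ) + 1) ^ (B + 1) := by positivity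
          linarith
      _ = U := by rw [hU]; push_cast; ring
  rw [← hs] at hdvd
  obtain ⟨G, hG0, hGdeg, hGb, hGdvd⟩ := small k L m U hU1 s hsU H hH hHdeg hdvd
  obtain ⟨M, hM⟩ : ∃ M, M = 2 * m + 1 := ⟨_, rfl⟩
  rw [← hM] at hGdeg
  obtain ⟨e, G', heM, hGG', hG'0, hndvd⟩ := divide p hp hdeg k M G hG0 hGdeg
  have hG'deg : ∀ j, (G' j).natDegree ≤ M := by
    intro j
    by_cases hj : j ≤ k
    · by_cases h0 : G' j = 0
      · rw [h0]; simp
      · have h1 := hGG' j hj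
        have h2 := hGdeg j
        rw [h1, natDegree_mul (pow_ne_zero _ hp0) h0] at h2
        omega
    · rw [hG'0 j (by omega)]; simp
  have hG'dvd : X ^ L ∣ ∑ j ∈ range (k + 1), G' j * s ^ j := by
    have h1 : ∑ j ∈ range (k + 1), G j * s ^ j = p ^ e * ∑ j ∈ range (k + 1), G' j * s ^ j := by
      rw [Finset.mul_sum]
      refine Finset.sum_congr rfl fun j hj => ?_
      rw [mem_range] at hj
      rw [hGG' j (by omega)]
      ring
    rw [h1] at hGdvd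
    refine Polynomial.prime_X.pow_dvd_of_dvd_mul_left L ?_ hGdvd
    intro h
    have h2 := Polynomial.prime_X.dvd_of_dvd_pow h
    exact hpc (X_dvd_iff.1 h2)
  -- heights
  obtain ⟨T₁, hT₁⟩ : ∃ T₁ : ℝ, T₁ = ((((k + 1) * (2 * m + 2) * U) ^ (2 * (k + 1)) : ℕ) : ℝ) :=
    ⟨_, rfl⟩
  have hT₁1 : 1 ≤ T₁ := by
    rw [hT₁]
    exact_mod_cast Nat.one_le_pow _ _ (by positivity)
  have hGR : ∀ j i, |((G j).coeff i : ℝ)| ≤ T₁ := by
    intro j i
    rw [← Int.cast_abs, hT₁]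
    exact_mod_cast hGb j i
  have hG'b := heights p hp0 hpc k M e heM T₁ hT₁1 G G' hGG' hG'0 hGdeg hG'deg hGR
  obtain ⟨T, hT⟩ : ∃ T : ℝ, T = (8 * P0 p) ^ M * T₁ := ⟨_, rfl⟩
  have hT1 : 1 ≤ T := by
    have h8P : 1 ≤ (8 * P0 p) ^ M := one_le_pow₀ (by linarith)
    rw [hT]
    nlinarith
  rw [← hT] at hG'b
  have hlow' := hlow M G' T hT1 hG'deg hG'b hndvd
  -- upper bound
  obtain ⟨y, hy⟩ : ∃ y : ℂ, y = aeval τ s := ⟨_, rfl⟩
  have hxy : ‖x - y‖ ≤ K * ρ ^ L := by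
    rw [hy, hs, aeval_sZ]
    exact htail a ha x hsum L
  have hρL : ρ ^ L ≤ 1 := pow_le_one₀ hρ0.le hρ1.le
  have hyW : ‖y‖ ≤ W := by
    have h1 : ‖y‖ ≤ ‖x‖ + ‖x - y‖ := by
      have h2 : y = x - (x - y) := by ring
      calc ‖y‖ = ‖x - (x - y)‖ := by rw [← h2]
        _ ≤ _ := norm_sub_le _ _
    have h3 : K * ρ ^ L ≤ K := mul_le_of_le_one_right (by linarith) hρL
    rw [hW]
    linarith
  have hnuG : ∀ j, nu 1 (G' j) ≤ (M + 1) * T := fun j =>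
    nu_le zero_le_one le_rfl (G' j) M (hG'deg j) T (hG'b j)
  have hup := upper k L M U x y τ ρ K W T s G' hy hτ1 hτρ hρ0 hρ1 hK hW1 hxW hyW hxy
    (by linarith) hU1 hsU hnuG hG'dvd
  have hmain : c * (S ^ M * T) ^ (-κ) ≤
      S ^ M * (ρ ^ L * ((M + 1) * T * U * ((k + 1) * (1 + k * W ^ k * K)))) :=
    hlow'.trans (mul_le_mul_of_nonneg_left hup (by positivity))
  exact logs k B m L M U c κ S ρ _ T T₁ (P0 p) hM hU hc hκ hS hρ0 hK₃1 hP1 hT₁ hT hmain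

end Pool.Agent.Y30.AB
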