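import Pool.Agent.Y30.AB.Core

/-!
# Errors and windows
-/

set_option autoImplicit false

namespace Pool.Agent.Y30.AB

open Polynomial Finset
open Pool.Agent.TH456.TM (MeasT)

/-- the polynomial `w 0 + w 1 X + ⋯ + w (L - 1) X ^ (L - 1)` -/
noncomputable def series (w : ℕ → ℂ) (L : ℕ) : ℂ[X] := ∑ n ∈ range L, C (w n) * X ^ n

/-- the number `x` has the property of the theorem, for exact initial segments -/
def Far (τ : ℂ) (x : ℂ) (k B C₀ : ℕ) : Prop :=
  ∀ a : ℕ → ℤ, (∀ n, |a n| ≤ B * ((n : ℤ) + 1) ^ B) → HasSum (fun n => (a n : ℂ) * τ ^ n) x →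
    ∀ (L m : ℕ) (h : ℂ[X][X]), h ≠ 0 → h.natDegree ≤ k → (∀ j, (h.coeff j).natDegree ≤ m) →
      X ^ L ∣ h.eval (series (fun n => (a n : ℂ)) L) → L ≤ C₀ * (m + 1)

theorem core2 (x : ℂ) (hx : MeasT x) (τ : ℂ) (hτ0 : τ ≠ 0) (hτ1 : ‖τ‖ < 1)
    (hτa : ∃ P : ℤ[X], P ≠ 0 ∧ aeval τ P = 0) (k B : ℕ) : ∃ C₀ : ℕ, 1 ≤ C₀ ∧ Far τ x k B C₀ := by
  obtain ⟨C₀, hC1, hC⟩ := core x hx τ hτ0 hτ1 hτa k B
  refine ⟨C₀, hC1, fun a ha hs L m h h0 hk hm hd => ?_⟩
  refine hC a ha hs L m (fun j => h.coeff j) ⟨h.natDegree, hk, leadingCoeff_ne_zero.2 h0⟩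
    (fun j _ => hm j) ?_
  have h1 : (sZ a L).map (Int.castRingHom ℂ) = series (fun n => (a n : ℂ)) L := by
    unfold sZ series
    rw [Polynomial.map_sum]
    refine Finset.sum_congr rfl fun n _ => ?_
    rw [Polynomial.map_mul, map_C, Polynomial.map_pow, map_X, eq_intCast]
  rw [h1, ← eval_eq_sum_range' (lt_of_le_of_lt hk (Nat.lt_succ_self k))]
  exact hd

lemma taylor_deg (h : ℂ[X][X]) (r : ℂ[X]) (k m d : ℕ) (hk : h.natDegree ≤ k)
    (hm : ∀ j, (h.coeff j).natDegree ≤ m) (hr : r.natDegree ≤ d) (j : ℕ) :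
    ((taylor r h).coeff j).natDegree ≤ m + k * d := by
  rw [taylor_coeff, eval_eq_sum_range' (n := k + 1)
    (lt_of_le_of_lt ((natDegree_hasseDeriv_le h j).trans (by omega)) (Nat.lt_succ_self k))]
  refine natDegree_sum_le_of_forall_le _ _ fun i hi => ?_
  rw [mem_range] at hi
  rw [hasseDeriv_coeff]
  refine (natDegree_mul_le).trans ?_
  have h1 : (((i + j).choose j : ℂ[X]) * h.coeff (i + j)).natDegree ≤ m := by
    refine natDegree_mul_le.trans ?_
    rw [natDegree_natCast, zero_add]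
    exact hm _
  have h2 : (r ^ i).natDegree ≤ k * d := by
    refine natDegree_pow_le.trans ?_
    exact Nat.mul_le_mul (by omega) hr
  omega

lemma series_dvd (w w' : ℕ → ℂ) (n L : ℕ) (hn : n ≤ L) (hw : ∀ i < n, w i = w' i) :
    X ^ n ∣ series w L - series w' n := by
  rw [X_pow_dvd_iff]
  intro i hi
  have hcoef : ∀ (v : ℕ → ℂ) (N : ℕ), i < N → (series v N).coeff i = v i := by
    intro v N hN
    unfold series
    simp only [finsetSum_coeff, coeff_C_mul_X_pow]
    rw [Finset.sum_ite_eq (range N) i v, if_pos (mem_range.2 hN)]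
  rw [coeff_sub, hcoef w L (by omega), hcoef w' n hi, hw i hi, sub_self]

/-- **Errors.** -/
theorem errors (x τ : ℂ) (k B C₀ : ℕ) (hC₀ : 1 ≤ C₀) (hF : Far τ x k B C₀) (a : ℕ → ℤ)
    (ha : ∀ n, |a n| ≤ B * ((n : ℤ) + 1) ^ B) (hs : HasSum (fun n => (a n : ℂ) * τ ^ n) x)
    (L t : ℕ) : ∀ (m : ℕ) (w : ℕ → ℂ) (h : ℂ[X][X]),
      ((range L).filter fun n => w n ≠ a n).card ≤ t → h ≠ 0 → h.natDegree ≤ k →
      (∀ j, (h.coeff j).natDegree ≤ m) → X ^ L ∣ h.eval (series w L) →
      L ≤ (C₀ * (k + 1)) ^ (t + 1) * (m + 1) := by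
  classical
  have hbase : 1 ≤ C₀ * (k + 1) := Nat.one_le_iff_ne_zero.2 (by positivity)
  -- no errors
  have hzero : ∀ (m : ℕ) (w : ℕ → ℂ) (h : ℂ[X][X]),
      (∀ n < L, w n = a n) → h ≠ 0 → h.natDegree ≤ k →
      (∀ j, (h.coeff j).natDegree ≤ m) → X ^ L ∣ h.eval (series w L) →
      L ≤ C₀ * (k + 1) * (m + 1) := by
    intro m w h hw h0 hk hm hd
    have h1 : series w L = series (fun n => (a n : ℂ)) L := by
      unfold series
      refine Finset.sum_congr rfl fun n hn => ?_
      rw [hw n (mem_range.1 hn)]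
    rw [h1] at hd
    refine (hF a ha hs L m h h0 hk hm hd).trans ?_
    apply Nat.mul_le_mul_right
    exact Nat.le_mul_of_pos_right _ (by omega)
  induction t with
  | zero =>
    intro m w h hE h0 hk hm hd
    rw [zero_add, pow_one]
    refine hzero m w h (fun n hn => ?_) h0 hk hm hd
    rw [Nat.le_zero, Finset.card_eq_zero] at hE
    by_contra hne
    have : n ∈ (range L).filter fun n => w n ≠ a n := mem_filter.2 ⟨mem_range.2 hn, hne⟩
    rw [hE] at this
    simp at this
  | succ t ih =>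
    intro m w h hE h0 hk hm hd
    obtain ⟨E, hEdef⟩ : ∃ E, E = (range L).filter fun n => w n ≠ a n := ⟨_, rfl⟩
    rw [← hEdef] at hE
    rcases E.eq_empty_or_nonempty with hemp | hne
    · have h1 := hzero m w h (fun n hn => by
        by_contra hne
        have : n ∈ E := by rw [hEdef]; exact mem_filter.2 ⟨mem_range.2 hn, hne⟩
        rw [hemp] at this
        simp at this) h0 hk hm hd
      refine h1.trans ?_
      apply Nat.mul_le_mul_right
      exact le_self_pow₀ hbase (by omega)
    · obtain ⟨n₁, hn₁⟩ : ∃ n₁, n₁ = E.min' hne := ⟨_, rfl⟩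
      have hn₁E : n₁ ∈ E := by rw [hn₁]; exact E.min'_mem hne
      have hn₁' := hn₁E
      rw [hEdef, mem_filter, mem_range] at hn₁'
      have hbelow : ∀ n < n₁, w n = a n := by
        intro n hn
        by_contra hne'
        have h1 : n ∈ E := by
          rw [hEdef]
          exact mem_filter.2 ⟨mem_range.2 (by omega), hne'⟩
        have h2 := E.min'_le n h1
        rw [← hn₁] at h2
        omega
      -- the initial segment without errors
      have hstep : n₁ ≤ C₀ * (m + 1) := by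
        refine hF a ha hs n₁ m h h0 hk hm ?_
        have h1 : X ^ n₁ ∣ h.eval (series w L) := (pow_dvd_pow X hn₁'.1.le).trans hd
        have h2 := (series_dvd w (fun n => (a n : ℂ)) n₁ L hn₁'.1.le hbelow).trans
          (sub_dvd_eval_sub (series w L) (series (fun n => (a n : ℂ)) n₁) h)
        exact (dvd_sub_right h1).1 h2
      -- remove the first error
      obtain ⟨c, hc⟩ : ∃ c : ℂ, c = w n₁ - a n₁ := ⟨_, rfl⟩
      obtain ⟨w', hw'⟩ : ∃ w' : ℕ → ℂ, w' = Function.update w n₁ (a n₁) := ⟨_, rfl⟩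
      obtain ⟨r, hr⟩ : ∃ r : ℂ[X], r = C c * X ^ n₁ := ⟨_, rfl⟩
      have hser : series w L = series w' L + r := by
        unfold series
        rw [← Finset.add_sum_erase _ _ (mem_range.2 hn₁'.1),
          ← Finset.add_sum_erase (range L) (fun n => C (w' n) * X ^ n) (mem_range.2 hn₁'.1)]
        have h1 : ∑ n ∈ (range L).erase n₁, C (w n) * X ^ n =
            ∑ n ∈ (range L).erase n₁, C (w' n) * X ^ n := by
          refine Finset.sum_congr rfl fun n hn => ?_
          rw [hw', Function.update_of_ne (mem_erase.1 hn).1]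
        rw [h1, hw', Function.update_self, hr, hc, C_sub]
        ring
      have hE' : ((range L).filter fun n => w' n ≠ a n).card ≤ t := by
        have h1 : ((range L).filter fun n => w' n ≠ a n) ⊆ E.erase n₁ := by
          intro n hn
          rw [mem_filter, mem_range] at hn
          have hne' : n ≠ n₁ := by
            rintro rfl
            apply hn.2
            rw [hw', Function.update_self]
          refine mem_erase.2 ⟨hne', ?_⟩
          rw [hEdef]
          refine mem_filter.2 ⟨mem_range.2 hn.1, ?_⟩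
          have h2 := hn.2
          rwa [hw', Function.update_of_ne hne'] at h2
        have h2 := card_le_card h1
        rw [card_erase_of_mem hn₁E] at h2
        omega
      have hrdeg : r.natDegree ≤ n₁ := by
        rw [hr]
        exact natDegree_C_mul_X_pow_le _ _
      have h1 := ih (m + k * n₁) w' (taylor r h) hE'
        (fun h2 => h0 (by
          apply taylor_injective r
          rw [h2, map_zero]))
        (by rw [natDegree_taylor]; exact hk)
        (fun j => taylor_deg h r k m n₁ hk hm hrdeg j)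
        (by
          rw [taylor_eval, add_comm, add_comm r, ← hser]
          exact hd)
      refine h1.trans ?_
      have h2 : m + k * n₁ + 1 ≤ C₀ * (k + 1) * (m + 1) := by
        have h3 : k * n₁ ≤ k * (C₀ * (m + 1)) := Nat.mul_le_mul_left k hstep
        nlinarith
      calc (C₀ * (k + 1)) ^ (t + 1) * (m + k * n₁ + 1)
          ≤ (C₀ * (k + 1)) ^ (t + 1) * (C₀ * (k + 1) * (m + 1)) := Nat.mul_le_mul_left _ h2
        _ = (C₀ * (k + 1)) ^ (t + 1 + 1) * (m + 1) := by ring

/-- **Windows.** -/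
theorem windows (x : ℂ) (hx : MeasT x) (τ : ℂ) (hτ0 : τ ≠ 0) (hτ1 : ‖τ‖ < 1)
    (hτa : ∃ P : ℤ[X], P ≠ 0 ∧ aeval τ P = 0) (k B : ℕ) :
    ∃ C₁ : ℕ, ∀ a : ℕ → ℤ, (∀ n, |a n| ≤ B * ((n : ℤ) + 1) ^ B) →
      HasSum (fun n => (a n : ℂ) * τ ^ n) x →
      ∀ (u L m t : ℕ) (w : ℕ → ℂ), ((range L).filter fun n => w n ≠ a (u + n)).card ≤ t →
      ∀ h : ℂ[X][X], h ≠ 0 → h.natDegree ≤ k → (∀ j, (h.coeff j).natDegree ≤ m) →
      X ^ L ∣ h.eval (series w L) → L ≤ C₁ ^ (t + 1) * (u + m + 1) := by
  classical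
  obtain ⟨K, hK⟩ : ∃ K, K = k + 1 := ⟨_, rfl⟩
  obtain ⟨C₀, hC₀, hF⟩ := core2 x hx τ hτ0 hτ1 hτa K B
  refine ⟨C₀ * (K + 1) * (2 * K + 1), fun a ha hs u L m t w hE h h0 hk hm hd => ?_⟩
  obtain ⟨P, hP⟩ : ∃ P, P = series (fun n => (a n : ℂ)) u := ⟨_, rfl⟩
  obtain ⟨v, hv⟩ : ∃ v : ℕ → ℂ, v = fun n => if n < u then (a n : ℂ) else w (n - u) := ⟨_, rfl⟩
  have hser : series v (u + L) = X ^ u * series w L + P := by
    unfold series at hP ⊢
    rw [Finset.sum_range_add, hP, Finset.mul_sum, add_comm]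
    congr 1
    · refine Finset.sum_congr rfl fun n _ => ?_
      have h1 : v (u + n) = w n := by
        rw [hv]
        simp
      rw [h1, pow_add]
      ring
    · refine Finset.sum_congr rfl fun n hn => ?_
      have h1 : v n = a n := by
        rw [hv]
        simp [mem_range.1 hn]
      rw [h1]
  obtain ⟨g, hg⟩ : ∃ g : ℂ[X][X], g = ∑ j ∈ range (K + 1),
    C (h.coeff j * X ^ ((K - j) * u)) * X ^ j := ⟨_, rfl⟩
  have hgcoef : ∀ j, g.coeff j = if j < K + 1 then h.coeff j * X ^ ((K - j) * u) else 0 := by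
    intro j
    rw [hg]
    simp only [finsetSum_coeff, coeff_C_mul_X_pow]
    rw [Finset.sum_ite_eq (range (K + 1)) j (fun j => h.coeff j * X ^ ((K - j) * u))]
    simp [mem_range]
  have hg0 : g ≠ 0 := by
    intro h1
    have h2 := hgcoef h.natDegree
    rw [h1, coeff_zero, if_pos (by omega)] at h2
    exact mul_ne_zero (leadingCoeff_ne_zero.2 h0) (pow_ne_zero _ X_ne_zero) h2.symm
  have hgk : g.natDegree ≤ K := by
    rw [natDegree_le_iff_coeff_eq_zero]
    intro j hj
    rw [hgcoef, if_neg (by omega)]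
  have hgm : ∀ j, (g.coeff j).natDegree ≤ m + K * u := by
    intro j
    rw [hgcoef]
    split_ifs
    · refine natDegree_mul_le.trans ?_
      rw [natDegree_X_pow]
      have h1 := hm j
      have h2 : (K - j) * u ≤ K * u := Nat.mul_le_mul_right u (Nat.sub_le _ _)
      omega
    · simp
  have hgeval : g.eval (X ^ u * series w L) = X ^ (K * u) * h.eval (series w L) := by
    rw [hg, eval_finsetSum, eval_eq_sum_range' (n := K + 1) (by omega), Finset.mul_sum]
    refine Finset.sum_congr rfl fun j hj => ?_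
    rw [mem_range] at hj
    rw [eval_mul, eval_C, eval_pow, eval_X, mul_pow, ← pow_mul]
    have h1 : (X : ℂ[X]) ^ (K * u) = X ^ ((K - j) * u) * X ^ (u * j) := by
      rw [← pow_add]
      congr 1
      have h2 : K = (K - j) + j := by omega
      conv_lhs => rw [h2]
      ring
    rw [h1]
    ring
  have hPdeg : (-P).natDegree ≤ u := by
    rw [natDegree_neg, hP]
    unfold series
    refine natDegree_sum_le_of_forall_le _ _ fun n hn => ?_
    rw [mem_range] at hn
    exact (natDegree_C_mul_X_pow_le _ _).trans hn.le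
  have hE' : ((range (u + L)).filter fun n => v n ≠ a n).card ≤ t := by
    refine le_trans ?_ hE
    have h1 : ((range (u + L)).filter fun n => v n ≠ a n) ⊆
        ((range L).filter fun n => w n ≠ a (u + n)).image (fun n => u + n) := by
      intro n hn
      rw [mem_filter, mem_range] at hn
      have h2 : ¬ n < u := by
        intro h3
        apply hn.2
        rw [hv]
        simp [h3]
      rw [mem_image]
      refine ⟨n - u, mem_filter.2 ⟨mem_range.2 (by omega), ?_⟩, by omega⟩
      have h4 := hn.2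
      rw [hv] at h4
      simp only [h2, if_false] at h4
      rwa [show u + (n - u) = n by omega]
    exact (card_le_card h1).trans card_image_le
  have h1 := errors x τ K B C₀ hC₀ hF a ha hs (u + L) t (m + K * u + K * u) v (taylor (-P) g) hE'
    (fun h2 => hg0 (by
      apply taylor_injective (-P)
      rw [h2, map_zero]))
    (by rw [natDegree_taylor]; exact hgk)
    (fun j => taylor_deg g (-P) K (m + K * u) u hgk hgm hPdeg j)
    (by
      rw [taylor_eval, hser]
      have h2 : -P + (X ^ u * series w L + P) = X ^ u * series w L := by ring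
      have h3 : X ^ u * series w L + P + -P = X ^ u * series w L := by ring
      first
        | rw [h2, hgeval]
        | rw [h3, hgeval]
      have h4 : u + L ≤ K * u + L := by
        have : u ≤ K * u := Nat.le_mul_of_pos_left u (by omega)
        omega
      refine (pow_dvd_pow X h4).trans ?_
      rw [pow_add]
      exact mul_dvd_mul_left _ hd)
  have h2 : m + K * u + K * u + 1 ≤ (2 * K + 1) * (u + m + 1) := by nlinarith
  have h3 : (2 * K + 1) ≤ (2 * K + 1) ^ (t + 1) := le_self_pow₀ (by omega) (by omega)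
  calc L ≤ u + L := by omega
    _ ≤ (C₀ * (K + 1)) ^ (t + 1) * (m + K * u + K * u + 1) := h1
    _ ≤ (C₀ * (K + 1)) ^ (t + 1) * ((2 * K + 1) * (u + m + 1)) := Nat.mul_le_mul_left _ h2
    _ ≤ (C₀ * (K + 1)) ^ (t + 1) * ((2 * K + 1) ^ (t + 1) * (u + m + 1)) :=
        Nat.mul_le_mul_left _ (Nat.mul_le_mul_right _ h3)
    _ = (C₀ * (K + 1) * (2 * K + 1)) ^ (t + 1) * (u + m + 1) := by
        rw [mul_pow (C₀ * (K + 1)) (2 * K + 1)]
        ring

end Pool.Agent.Y30.AB
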