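import Mathlib

/-!
# Weighted norms of integer polynomials
-/

set_option autoImplicit false

namespace Pool.Agent.Y30.AB

open Polynomial Finset

/-- the polynomial with the absolute values of the coefficients -/
noncomputable def ab (f : ℤ[X]) : ℝ[X] :=
  ∑ i ∈ range (f.natDegree + 1), C |(f.coeff i : ℝ)| * X ^ i

lemma coeff_ab (f : ℤ[X]) (n : ℕ) : (ab f).coeff n = |(f.coeff n : ℝ)| := by
  unfold ab
  rw [finsetSum_coeff]
  simp only [coeff_C_mul_X_pow]
  rw [Finset.sum_ite_eq (range (f.natDegree + 1)) n]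
  split_ifs with h
  · rfl
  · rw [mem_range, not_lt] at h
    rw [coeff_eq_zero_of_natDegree_lt (by omega)]
    simp

lemma eval_mono {f g : ℝ[X]} (h : ∀ n, f.coeff n ≤ g.coeff n) {R : ℝ} (hR : 0 ≤ R) :
    f.eval R ≤ g.eval R := by
  rw [eval_eq_sum_range' (lt_of_le_of_lt (le_max_left _ _) (Nat.lt_succ_self
    (max f.natDegree g.natDegree))), eval_eq_sum_range' (lt_of_le_of_lt (le_max_right _ _)
    (Nat.lt_succ_self (max f.natDegree g.natDegree)))]
  exact Finset.sum_le_sum fun i _ => mul_le_mul_of_nonneg_right (h i) (pow_nonneg hR i)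

/-- the weighted sum of the absolute values of the coefficients -/
noncomputable def nu (R : ℝ) (f : ℤ[X]) : ℝ := (ab f).eval R

variable {R : ℝ}

lemma nu_nonneg (hR : 0 ≤ R) (f : ℤ[X]) : 0 ≤ nu R f := by
  have := eval_mono (f := 0) (g := ab f) (fun n => by rw [coeff_ab, coeff_zero]; positivity) hR
  rw [eval_zero] at this
  exact this

lemma nu_mul (hR : 0 ≤ R) (f g : ℤ[X]) : nu R (f * g) ≤ nu R f * nu R g := by
  unfold nu
  rw [← eval_mul]
  apply eval_mono _ hR
  intro n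
  rw [coeff_ab, coeff_mul, coeff_mul]
  push_cast
  refine (Finset.abs_sum_le_sum_abs _ _).trans (le_of_eq ?_)
  refine Finset.sum_congr rfl fun x _ => ?_
  rw [abs_mul, coeff_ab, coeff_ab]

lemma nu_add (hR : 0 ≤ R) (f g : ℤ[X]) : nu R (f + g) ≤ nu R f + nu R g := by
  unfold nu
  rw [← eval_add]
  apply eval_mono _ hR
  intro n
  rw [coeff_ab, coeff_add, coeff_add, coeff_ab, coeff_ab]
  push_cast
  exact abs_add_le _ _

lemma nu_sub (hR : 0 ≤ R) (f g : ℤ[X]) : nu R (f - g) ≤ nu R f + nu R g := by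
  unfold nu
  rw [← eval_add]
  apply eval_mono _ hR
  intro n
  rw [coeff_ab, coeff_sub, coeff_add, coeff_ab, coeff_ab]
  push_cast
  exact abs_sub _ _

lemma nu_C_mul (c : ℤ) (f : ℤ[X]) : nu R (C c * f) = |(c : ℝ)| * nu R f := by
  unfold nu
  rw [← eval_C_mul]
  congr 1
  ext n
  rw [coeff_ab, coeff_C_mul, coeff_C_mul, coeff_ab]
  push_cast
  exact abs_mul _ _

lemma nu_zero : nu R 0 = 0 := by
  have h : ab 0 = 0 := by
    ext n
    rw [coeff_ab]
    simp
  unfold nu
  rw [h, eval_zero]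

lemma nu_one : nu R 1 = 1 := by
  have h : ab 1 = 1 := by
    ext n
    rw [coeff_ab, coeff_one, coeff_one]
    split_ifs <;> simp
  unfold nu
  rw [h, eval_one]

lemma nu_sum (hR : 0 ≤ R) {ι : Type} (s : Finset ι) (f : ι → ℤ[X]) :
    nu R (∑ i ∈ s, f i) ≤ ∑ i ∈ s, nu R (f i) := by
  classical
  induction s using Finset.induction_on with
  | empty => simp [nu_zero]
  | insert a s ha ih =>
    rw [Finset.sum_insert ha, Finset.sum_insert ha]
    exact (nu_add hR _ _).trans (by linarith)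

lemma nu_pow (hR : 0 ≤ R) (f : ℤ[X]) (n : ℕ) : nu R (f ^ n) ≤ nu R f ^ n := by
  induction n with
  | zero => simp [nu_one]
  | succ n ih =>
    rw [pow_succ, pow_succ]
    exact (nu_mul hR _ _).trans (mul_le_mul_of_nonneg_right ih (nu_nonneg hR f))

lemma coeff_le_nu (hR : 0 ≤ R) (f : ℤ[X]) (i : ℕ) : |(f.coeff i : ℝ)| * R ^ i ≤ nu R f := by
  have h := eval_mono (f := C |(f.coeff i : ℝ)| * X ^ i) (g := ab f) (fun n => by
    rw [coeff_C_mul_X_pow, coeff_ab]
    split_ifs with h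
    · rw [h]
    · positivity) hR
  simpa [nu] using h

/-- an upper bound by the largest coefficient -/
lemma nu_le (hR : 0 ≤ R) (hR1 : R ≤ 1) (f : ℤ[X]) (d : ℕ) (hd : f.natDegree ≤ d) (T : ℝ)
    (hT : ∀ i, |(f.coeff i : ℝ)| ≤ T) : nu R f ≤ (d + 1) * T := by
  have hT0 : 0 ≤ T := (abs_nonneg _).trans (hT 0)
  unfold nu
  have hdeg : (ab f).natDegree < d + 1 := by
    rw [Nat.lt_succ_iff, natDegree_le_iff_coeff_eq_zero]
    intro n hn
    rw [coeff_ab, coeff_eq_zero_of_natDegree_lt (by omega)]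
    simp
  rw [eval_eq_sum_range' hdeg]
  calc ∑ i ∈ range (d + 1), (ab f).coeff i * R ^ i ≤ ∑ _i ∈ range (d + 1), T * 1 := by
        refine Finset.sum_le_sum fun i _ => ?_
        rw [coeff_ab]
        exact mul_le_mul (hT i) (pow_le_one₀ hR hR1) (pow_nonneg hR i) hT0
    _ = (d + 1) * T := by simp

/-- division by a polynomial with a large constant coefficient -/
lemma nu_div (hR : 0 ≤ R) (p q : ℤ[X]) (h0 : p.coeff 0 ≠ 0)
    (hp : nu R (p - C (p.coeff 0)) ≤ 1 / 2) : nu R q ≤ 2 * nu R (p * q) := by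
  have h1 : C (p.coeff 0) * q = p * q - (p - C (p.coeff 0)) * q := by ring
  have h2 := nu_sub hR (p * q) ((p - C (p.coeff 0)) * q)
  rw [← h1, nu_C_mul] at h2
  have h3 := nu_mul hR (p - C (p.coeff 0)) q
  have h4 : (1 : ℝ) ≤ |((p.coeff 0 : ℤ) : ℝ)| := by
    rw [← Int.cast_abs]
    exact_mod_cast Int.one_le_abs h0
  have h5 := nu_nonneg hR q
  nlinarith [mul_le_mul_of_nonneg_right hp h5, mul_le_mul_of_nonneg_right h4 h5]

lemma nu_div_pow (hR : 0 ≤ R) (p : ℤ[X]) (h0 : p.coeff 0 ≠ 0)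
    (hp : nu R (p - C (p.coeff 0)) ≤ 1 / 2) (e : ℕ) (q : ℤ[X]) :
    nu R q ≤ 2 ^ e * nu R (p ^ e * q) := by
  induction e generalizing q with
  | zero => simp
  | succ e ih =>
    have h1 := nu_div hR p q h0 hp
    have h2 := ih (p * q)
    have h3 : p ^ (e + 1) * q = p ^ e * (p * q) := by ring
    rw [h3, pow_succ]
    linarith

/-- the sum of the absolute values of the coefficients -/
noncomputable def P0 (p : ℤ[X]) : ℝ := nu 1 p

lemma coeff_le_P0 (p : ℤ[X]) (i : ℕ) : |(p.coeff i : ℝ)| ≤ P0 p := by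
  have h := coeff_le_nu (R := 1) zero_le_one p i
  rw [one_pow, mul_one] at h
  exact h

lemma one_le_P0 (p : ℤ[X]) (hp : p ≠ 0) : 1 ≤ P0 p := by
  have h1 : p.leadingCoeff ≠ 0 := leadingCoeff_ne_zero.2 hp
  refine le_trans ?_ (coeff_le_P0 p p.natDegree)
  rw [← Int.cast_abs]
  exact_mod_cast Int.one_le_abs h1

/-- a radius at which the constant coefficient dominates -/
lemma small_radius (p : ℤ[X]) (hp : p ≠ 0) :
    nu (1 / (2 * P0 p)) (p - C (p.coeff 0)) ≤ 1 / 2 := by
  have h1 := one_le_P0 p hp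
  obtain ⟨R, hR⟩ : ∃ R, R = 1 / (2 * P0 p) := ⟨_, rfl⟩
  have hR0 : 0 ≤ R := by rw [hR]; positivity
  have hR1 : R ≤ 1 := by
    rw [hR, div_le_one (by positivity)]
    linarith
  rw [← hR]
  have h2 : nu R (p - C (p.coeff 0)) ≤ R * nu 1 p := by
    unfold nu
    have hdeg : (ab (p - C (p.coeff 0))).natDegree < p.natDegree + 1 := by
      rw [Nat.lt_succ_iff, natDegree_le_iff_coeff_eq_zero]
      intro n hn
      rw [coeff_ab, coeff_sub, coeff_eq_zero_of_natDegree_lt (by omega),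
        coeff_C_of_ne_zero (by omega)]
      simp
    have hdeg2 : (ab p).natDegree < p.natDegree + 1 := by
      rw [Nat.lt_succ_iff, natDegree_le_iff_coeff_eq_zero]
      intro n hn
      rw [coeff_ab, coeff_eq_zero_of_natDegree_lt (by omega)]
      simp
    rw [eval_eq_sum_range' hdeg, eval_eq_sum_range' hdeg2, Finset.mul_sum]
    refine Finset.sum_le_sum fun i _ => ?_
    rw [coeff_ab, coeff_ab, coeff_sub]
    rcases Nat.eq_zero_or_pos i with h0 | h0
    · subst h0
      simp only [coeff_C_zero, sub_self, Int.cast_zero, abs_zero, zero_mul, one_pow, mul_one]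
      positivity
    · rw [coeff_C_of_ne_zero (by omega), sub_zero, one_pow, mul_one]
      have h3 : R ^ i ≤ R := by
        have := pow_le_pow_of_le_one hR0 hR1 h0
        rw [pow_one] at this
        exact this
      rw [mul_comm]
      exact mul_le_mul_of_nonneg_right h3 (abs_nonneg _)
  refine h2.trans (le_of_eq ?_)
  have h4 : nu 1 p = P0 p := rfl
  rw [h4, hR]
  field_simp

end Pool.Agent.Y30.AB
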