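import Pool.Agent.Y30.AB.Val
import Pool.Agent.TH456.TM.AlgDep
import Pool.Agent.TH456.TM.Pair

/-!
# Reduction modulo the minimal polynomial of an algebraic number
-/

set_option autoImplicit false

namespace Pool.Agent.Y30.AB

open Polynomial Finset
open Pool.Agent.TH456.TM (MeasT vl pairG dvd_of_root exists_irr_factor)

/-- powers of a root `α` of `p` in terms of the powers below the degree -/
lemma red_pow (p : ℤ[X]) (hp : p.natDegree ≠ 0) (i : ℕ) : ∃ r : ℕ → ℤ,
    (∀ l, |(r l : ℝ)| ≤ (2 * P0 p) ^ i) ∧ ∀ α : ℂ, aeval α p = 0 →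
      (p.leadingCoeff : ℂ) ^ i * α ^ i = ∑ l ∈ range p.natDegree, (r l : ℂ) * α ^ l := by
  obtain ⟨d, hd⟩ : ∃ d, p.natDegree = d + 1 := ⟨p.natDegree - 1, by omega⟩
  have hp0 : p ≠ 0 := by
    rintro rfl
    simp at hd
  have hP1 := one_le_P0 p hp0
  rw [hd]
  induction i with
  | zero =>
    refine ⟨fun l => if l = 0 then 1 else 0, fun l => ?_, fun α _ => ?_⟩
    · show |((if l = 0 then (1 : ℤ) else 0 : ℤ) : ℝ)| ≤ _
      split_ifs <;> simp
    · rw [Finset.sum_range_succ']
      simp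
  | succ i ih =>
    obtain ⟨r, hr1, hr2⟩ := ih
    refine ⟨fun l => (if l = 0 then 0 else p.leadingCoeff * r (l - 1)) - r d * p.coeff l,
      fun l => ?_, fun α hα => ?_⟩
    · have hA : 0 ≤ (2 * P0 p) ^ i := by positivity
      have h1 : |((if l = 0 then 0 else p.leadingCoeff * r (l - 1) : ℤ) : ℝ)| ≤
          P0 p * (2 * P0 p) ^ i := by
        split_ifs
        · simp only [Int.cast_zero, abs_zero]
          positivity
        · push_cast
          rw [abs_mul]
          exact mul_le_mul (coeff_le_P0 p _) (hr1 _) (abs_nonneg _) (by linarith)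
      have h2 : |((r d * p.coeff l : ℤ) : ℝ)| ≤ P0 p * (2 * P0 p) ^ i := by
        push_cast
        rw [abs_mul, mul_comm]
        exact mul_le_mul (coeff_le_P0 p _) (hr1 _) (abs_nonneg _) (by linarith)
      have h3 : (((if l = 0 then 0 else p.leadingCoeff * r (l - 1)) - r d * p.coeff l : ℤ) : ℝ) =
          ((if l = 0 then 0 else p.leadingCoeff * r (l - 1) : ℤ) : ℝ) -
            ((r d * p.coeff l : ℤ) : ℝ) := by
        rw [Int.cast_sub]
      rw [h3]
      refine (abs_sub _ _).trans ?_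
      rw [pow_succ]
      linarith
    · have h1 := hr2 α hα
      have h2 : aeval α p = ∑ l ∈ range (d + 1), (p.coeff l : ℂ) * α ^ l +
          (p.leadingCoeff : ℂ) * α ^ (d + 1) := by
        rw [aeval_eq_sum_range, hd, Finset.sum_range_succ]
        simp only [zsmul_eq_mul]
        rw [leadingCoeff, hd]
      rw [hα] at h2
      have h3 : ∑ l ∈ range (d + 1),
          ((((if l = 0 then 0 else p.leadingCoeff * r (l - 1)) - r d * p.coeff l : ℤ)) : ℂ) * α ^ l =
          ∑ l ∈ range (d + 1), ((if l = 0 then 0 else p.leadingCoeff * r (l - 1) : ℤ) : ℂ) * α ^ l -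
            (r d : ℂ) * ∑ l ∈ range (d + 1), (p.coeff l : ℂ) * α ^ l := by
        rw [Finset.mul_sum, ← Finset.sum_sub_distrib]
        refine Finset.sum_congr rfl fun l _ => ?_
        rw [Int.cast_sub, Int.cast_mul (r d)]
        ring
      have h4 : ∑ l ∈ range (d + 1),
          ((if l = 0 then 0 else p.leadingCoeff * r (l - 1) : ℤ) : ℂ) * α ^ l =
          (p.leadingCoeff : ℂ) * α * ∑ l ∈ range d, (r l : ℂ) * α ^ l := by
        rw [Finset.sum_range_succ', Finset.mul_sum]
        simp only [Nat.add_eq_zero_iff, one_ne_zero, and_false, if_false, Nat.add_sub_cancel,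
          if_true, Int.cast_zero, zero_mul, add_zero]
        refine Finset.sum_congr rfl fun l _ => ?_
        push_cast
        ring
      rw [h3, h4]
      rw [Finset.sum_range_succ] at h1
      have h5 : (p.leadingCoeff : ℂ) ^ (i + 1) * α ^ (i + 1) =
          (p.leadingCoeff : ℂ) * α * ((p.leadingCoeff : ℂ) ^ i * α ^ i) := by ring
      rw [h5, h1]
      linear_combination (-(r d : ℂ)) * h2

/-- **Lower bound** for the values of polynomials in `x` and an algebraic number. -/
theorem lower (x : ℂ) (hx : MeasT x) (p : ℤ[X]) (hp : Irreducible p) (τ : ℂ)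
    (hτ : aeval τ p = 0) (k : ℕ) :
    ∃ κ c S : ℝ, 0 < κ ∧ 0 < c ∧ 1 ≤ S ∧ ∀ (M : ℕ) (H : ℕ → ℤ[X]) (T : ℝ), 1 ≤ T →
      (∀ j, (H j).natDegree ≤ M) → (∀ j i, |((H j).coeff i : ℝ)| ≤ T) →
      (∃ j ≤ k, ¬ p ∣ H j) →
      c * (S ^ M * T) ^ (-κ) ≤
        S ^ M * ‖∑ j ∈ range (k + 1), aeval τ (H j) * x ^ j‖ := by
  have hp0 : p ≠ 0 := hp.ne_zero
  have hdeg : p.natDegree ≠ 0 := by
    intro h0
    rw [eq_C_of_natDegree_eq_zero h0, aeval_C, eq_intCast, Int.cast_eq_zero] at hτ
    exact hp0 (by rw [eq_C_of_natDegree_eq_zero h0, hτ, C_0])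
  have hP1 := one_le_P0 p hp0
  obtain ⟨κ, hκ, hpair⟩ := pairG x hx p.natDegree k (by omega)
  obtain ⟨C₀, hC₀, hpair⟩ := hpair ‖τ‖
  obtain ⟨c, hc⟩ : ∃ c : ℝ, c = C₀ * (P0 p) ^ (-κ) := ⟨_, rfl⟩
  have hc0 : 0 < c := by rw [hc]; positivity
  refine ⟨κ, c, 4 * (P0 p) ^ 2, hκ, hc0, by nlinarith, ?_⟩
  intro M H T hT hHM hHT hndvd
  choose r hr1 hr2 using fun i => red_pow p hdeg i
  obtain ⟨G, hG⟩ : ∃ G : ℕ → ℕ → ℤ, G = fun l j => ∑ i ∈ range (M + 1),
    (H j).coeff i * p.leadingCoeff ^ (M - i) * r i l := ⟨_, rfl⟩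
  obtain ⟨g, hg⟩ : ∃ g : ℕ → ℤ[X], g = fun l => ∑ j ∈ range (k + 1), C (G l j) * X ^ j := ⟨_, rfl⟩
  obtain ⟨F, hF⟩ : ∃ F : ℤ[X][X], F = ∑ l ∈ range p.natDegree, C (g l) * X ^ l := ⟨_, rfl⟩
  have hgcoef : ∀ l j, (g l).coeff j = if j < k + 1 then G l j else 0 := by
    intro l j
    rw [hg]
    simp only [finsetSum_coeff, coeff_C_mul_X_pow]
    rw [Finset.sum_ite_eq (range (k + 1)) j (fun i => G l i)]
    simp [mem_range]
  have hFcoef : ∀ l, F.coeff l = if l < p.natDegree then g l else 0 := by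
    intro l
    rw [hF]
    simp only [finsetSum_coeff, coeff_C_mul_X_pow]
    rw [Finset.sum_ite_eq (range p.natDegree) l g]
    simp [mem_range]
  -- values of `F`
  have hval : ∀ α x₀ : ℂ, aeval α p = 0 →
      vl x₀ α F = (p.leadingCoeff : ℂ) ^ M * ∑ j ∈ range (k + 1), aeval α (H j) * x₀ ^ j := by
    intro α x₀ hα
    have h1 : ∀ j, (p.leadingCoeff : ℂ) ^ M * aeval α (H j) =
        ∑ l ∈ range p.natDegree, (G l j : ℂ) * α ^ l := by
      intro j
      have h2 : aeval α (H j) = ∑ i ∈ range (M + 1), ((H j).coeff i : ℂ) * α ^ i := by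
        rw [aeval_eq_sum_range' (lt_of_le_of_lt (hHM j) (Nat.lt_succ_self M))]
        simp only [zsmul_eq_mul]
      rw [h2, Finset.mul_sum]
      have h3 : ∀ i ∈ range (M + 1), (p.leadingCoeff : ℂ) ^ M * (((H j).coeff i : ℂ) * α ^ i) =
          ∑ l ∈ range p.natDegree,
            ((H j).coeff i : ℂ) * (p.leadingCoeff : ℂ) ^ (M - i) * (r i l : ℂ) * α ^ l := by
        intro i hi
        rw [mem_range] at hi
        have h4 : (p.leadingCoeff : ℂ) ^ M =
            (p.leadingCoeff : ℂ) ^ (M - i) * (p.leadingCoeff : ℂ) ^ i := by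
          rw [← pow_add]
          congr 1
          omega
        rw [h4]
        have h5 := hr2 i α hα
        calc (p.leadingCoeff : ℂ) ^ (M - i) * (p.leadingCoeff : ℂ) ^ i *
              (((H j).coeff i : ℂ) * α ^ i)
            = ((H j).coeff i : ℂ) * (p.leadingCoeff : ℂ) ^ (M - i) *
              ((p.leadingCoeff : ℂ) ^ i * α ^ i) := by ring
          _ = _ := by
              rw [h5, Finset.mul_sum]
              refine Finset.sum_congr rfl fun l _ => ?_
              ring
      rw [Finset.sum_congr rfl h3, Finset.sum_comm]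
      refine Finset.sum_congr rfl fun l _ => ?_
      rw [hG]
      push_cast
      rw [Finset.sum_mul]
    unfold vl
    rw [hF, Polynomial.map_sum, eval_finsetSum]
    have h6 : ∀ l, (Polynomial.map (Pool.Agent.TH456.TM.σx x₀) (C (g l) * X ^ l)).eval α =
        ∑ j ∈ range (k + 1), (G l j : ℂ) * α ^ l * x₀ ^ j := by
      intro l
      rw [Polynomial.map_mul, map_C, Polynomial.map_pow, map_X, eval_mul, eval_C, eval_pow, eval_X,
        hg]
      simp only [Pool.Agent.TH456.TM.σx, AlgHom.toRingHom_eq_coe, RingHom.coe_coe, map_sum, map_mul,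
        map_pow, aeval_X, eq_intCast, map_intCast]
      rw [Finset.sum_mul]
      refine Finset.sum_congr rfl fun j _ => ?_
      ring
    rw [Finset.sum_congr rfl fun l _ => h6 l, Finset.sum_comm, Finset.mul_sum]
    refine Finset.sum_congr rfl fun j _ => ?_
    rw [← mul_assoc, h1 j, Finset.sum_mul]
  -- heights
  obtain ⟨S, hS⟩ : ∃ S : ℝ, S = 4 * (P0 p) ^ 2 := ⟨_, rfl⟩
  have hT0 : 0 ≤ T := by linarith
  have hGb : ∀ l j, |(G l j : ℝ)| ≤ S ^ M * T := by
    intro l j
    rw [hG]
    push_cast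
    refine (Finset.abs_sum_le_sum_abs _ _).trans ?_
    have h1 : ∀ i ∈ range (M + 1), |((H j).coeff i : ℝ) * (p.leadingCoeff : ℝ) ^ (M - i) *
        (r i l : ℝ)| ≤ T * (2 * P0 p ^ 2) ^ M := by
      intro i hi
      rw [mem_range] at hi
      rw [abs_mul, abs_mul, abs_pow]
      have h2 : |(p.leadingCoeff : ℝ)| ^ (M - i) ≤ (P0 p) ^ M := by
        refine (pow_le_pow_left₀ (abs_nonneg _) (coeff_le_P0 p _) _).trans ?_
        exact pow_le_pow_right₀ hP1 (by omega)
      have h3 : |(r i l : ℝ)| ≤ (2 * P0 p) ^ M :=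
        (hr1 i l).trans (pow_le_pow_right₀ (by linarith) (by omega))
      calc |((H j).coeff i : ℝ)| * |(p.leadingCoeff : ℝ)| ^ (M - i) * |(r i l : ℝ)|
          ≤ T * (P0 p) ^ M * (2 * P0 p) ^ M := by
            gcongr
            exact hHT j i
        _ = T * (2 * P0 p ^ 2) ^ M := by
            rw [mul_assoc, ← mul_pow]
            congr 2
            ring
    refine (Finset.sum_le_sum h1).trans ?_
    rw [Finset.sum_const, card_range, nsmul_eq_mul]
    have h4 : ((M + 1 : ℕ) : ℝ) ≤ 2 ^ M := by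
      have := Nat.lt_two_pow_self (n := M)
      exact_mod_cast this
    calc ((M + 1 : ℕ) : ℝ) * (T * (2 * P0 p ^ 2) ^ M) ≤ 2 ^ M * (T * (2 * P0 p ^ 2) ^ M) := by
          gcongr
      _ = S ^ M * T := by
          rw [hS, show (4 : ℝ) * P0 p ^ 2 = 2 * (2 * P0 p ^ 2) by ring, mul_pow 2 (2 * P0 p ^ 2)]
          ring
  have hS1 : 1 ≤ S := by rw [hS]; nlinarith
  have hSM : 1 ≤ S ^ M := one_le_pow₀ hS1
  have hST : 1 ≤ S ^ M * T := by nlinarith
  have hnon : ∀ α : ℂ, aeval α p = 0 → ∃ x₀ : ℂ, vl x₀ α F ≠ 0 := by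
    intro α hα
    by_contra hcon
    push Not at hcon
    obtain ⟨j, hjk, hj⟩ := hndvd
    have h1 : (∑ j ∈ range (k + 1), C (aeval α (H j)) * X ^ j : ℂ[X]) = 0 := by
      refine Polynomial.funext fun x₀ => ?_
      have h2 := hcon x₀
      rw [hval α x₀ hα] at h2
      have h3 : (p.leadingCoeff : ℂ) ^ M ≠ 0 := by
        apply pow_ne_zero
        exact_mod_cast leadingCoeff_ne_zero.2 hp0
      have h4 := (mul_eq_zero.1 h2).resolve_left h3
      rw [eval_zero, eval_finsetSum]
      simp only [eval_mul, eval_C, eval_pow, eval_X]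
      exact h4
    have h2 := congrArg (fun f : ℂ[X] => f.coeff j) h1
    simp only [finsetSum_coeff, coeff_C_mul_X_pow, coeff_zero] at h2
    rw [Finset.sum_ite_eq (range (k + 1)) j (fun j => aeval α (H j)), if_pos
      (mem_range.2 (by omega))] at h2
    exact hj (dvd_of_root p (H j) hp α hα h2)
  have hfin := hpair τ le_rfl p F hp0 le_rfl (by
      rw [natDegree_le_iff_coeff_eq_zero]
      intro l hl
      rw [hFcoef, if_neg (by omega)]) (by
      intro l
      rw [hFcoef]
      split_ifs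
      · rw [natDegree_le_iff_coeff_eq_zero]
        intro j hj
        rw [hgcoef, if_neg (by omega)]
      · simp) hnon (P0 p * (S ^ M * T)) (by nlinarith)
    (fun i => (coeff_le_P0 p i).trans (by nlinarith))
    (fun l j => by
      have h0 : |(((F.coeff l).coeff j : ℤ) : ℝ)| ≤ S ^ M * T := by
        rw [hFcoef]
        split_ifs
        · rw [hgcoef]
          split_ifs
          · exact hGb l j
          · simp only [Int.cast_zero, abs_zero]
            linarith
        · simp only [coeff_zero, Int.cast_zero, abs_zero]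
          linarith
      exact h0.trans (by nlinarith))
  rw [hτ, norm_zero, max_eq_right (norm_nonneg _), hval τ x hτ, norm_mul, norm_pow,
    Real.mul_rpow (by linarith) (by linarith), ← mul_assoc, ← hc] at hfin
  rw [← hS]
  refine hfin.trans ?_
  gcongr
  rw [Complex.norm_intCast]
  refine (coeff_le_P0 p _).trans ?_
  rw [hS]
  nlinarith

end Pool.Agent.Y30.AB
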