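import Pool.Agent.Y30.AB.Nu

/-!
# Values
-/

set_option autoImplicit false

namespace Pool.Agent.Y30.AB

open Polynomial Finset Filter Topology

/-- values of polynomials divisible by `X ^ L` -/
lemma eval_small (f : ℤ[X]) (L : ℕ) (hf : X ^ L ∣ f) (τ : ℂ) (r : ℝ) (hτ : ‖τ‖ ≤ r)
    (hr : r ≤ 1) : ‖aeval τ f‖ ≤ r ^ L * nu 1 f := by
  have hr0 : 0 ≤ r := (norm_nonneg _).trans hτ
  rw [aeval_eq_sum_range]
  unfold nu
  have hdeg : (ab f).natDegree < f.natDegree + 1 := by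
    rw [Nat.lt_succ_iff, natDegree_le_iff_coeff_eq_zero]
    intro n hn
    rw [coeff_ab, coeff_eq_zero_of_natDegree_lt (by omega)]
    simp
  rw [eval_eq_sum_range' hdeg, Finset.mul_sum]
  refine (norm_sum_le _ _).trans (Finset.sum_le_sum fun i _ => ?_)
  rw [coeff_ab, one_pow, mul_one, zsmul_eq_mul, norm_mul, norm_pow, Complex.norm_intCast, mul_comm]
  by_cases hi : i < L
  · rw [X_pow_dvd_iff.1 hf i hi]
    simp
  · rw [not_lt] at hi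
    refine mul_le_mul_of_nonneg_right ?_ (abs_nonneg _)
    exact (pow_le_pow_left₀ (norm_nonneg _) hτ i).trans (pow_le_pow_of_le_one hr0 hr hi)

lemma eval_le_nu (f : ℤ[X]) (τ : ℂ) (hτ : ‖τ‖ ≤ 1) : ‖aeval τ f‖ ≤ nu 1 f := by
  have := eval_small f 0 (by simp) τ 1 hτ le_rfl
  simpa using this

/-- remainders of the series -/
lemma tail (τ : ℂ) (h1 : ‖τ‖ < 1) (B : ℕ) : ∃ ρ K : ℝ, ‖τ‖ ≤ ρ ∧ 0 < ρ ∧ ρ < 1 ∧ 1 ≤ K ∧
    ∀ a : ℕ → ℤ, (∀ n, |a n| ≤ B * ((n : ℤ) + 1) ^ B) → ∀ x : ℂ,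
      HasSum (fun n => (a n : ℂ) * τ ^ n) x → ∀ L : ℕ,
      ‖x - ∑ n ∈ range L, (a n : ℂ) * τ ^ n‖ ≤ K * ρ ^ L := by
  obtain ⟨ρ, hρ⟩ : ∃ ρ : ℝ, ρ = (1 + ‖τ‖) / 2 := ⟨_, rfl⟩
  have h0 := norm_nonneg τ
  have hρ0 : 0 < ρ := by rw [hρ]; linarith
  have hρ1 : ρ < 1 := by rw [hρ]; linarith
  have hτρ : ‖τ‖ < ρ := by rw [hρ]; linarith
  obtain ⟨q, hq⟩ : ∃ q : ℝ, q = ‖τ‖ / ρ := ⟨_, rfl⟩
  have hq0 : 0 ≤ q := by rw [hq]; positivity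
  have hq1 : q < 1 := by rw [hq, div_lt_one hρ0]; exact hτρ
  have hlim := tendsto_pow_const_mul_const_pow_of_abs_lt_one B
    (show |q| < 1 by rw [abs_of_nonneg hq0]; exact hq1)
  obtain ⟨K₁, hK₁⟩ := hlim.bddAbove_range
  have hK : ∀ n : ℕ, (n : ℝ) ^ B * q ^ n ≤ K₁ := fun n => hK₁ ⟨n, rfl⟩
  -- shift by one
  obtain ⟨K₂, hK₂⟩ : ∃ K₂ : ℝ, 0 ≤ K₂ ∧ ∀ n : ℕ, ((n : ℝ) + 1) ^ B * q ^ n ≤ K₂ := by
    refine ⟨2 ^ B * (max K₁ 0) + 1, by positivity, fun n => ?_⟩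
    rcases Nat.eq_zero_or_pos n with hn | hn
    · subst hn
      simp
    · have h2 : ((n : ℝ) + 1) ≤ 2 * n := by
        have : (1 : ℝ) ≤ n := by exact_mod_cast hn
        linarith
      calc ((n : ℝ) + 1) ^ B * q ^ n ≤ (2 * n) ^ B * q ^ n := by gcongr
        _ = 2 ^ B * ((n : ℝ) ^ B * q ^ n) := by rw [mul_pow]; ring
        _ ≤ 2 ^ B * max K₁ 0 := by
            gcongr
            exact (hK n).trans (le_max_left _ _)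
        _ ≤ _ := by linarith
  obtain ⟨hK₂0, hK₂⟩ := hK₂
  refine ⟨ρ, B * K₂ / (1 - ρ) + 1, hτρ.le, hρ0, hρ1, ?_, ?_⟩
  · have : 0 ≤ B * K₂ / (1 - ρ) := by
      have : 0 < 1 - ρ := by linarith
      positivity
    linarith
  intro a ha x hx L
  have hterm : ∀ n, ‖(a n : ℂ) * τ ^ n‖ ≤ B * K₂ * ρ ^ n := by
    intro n
    rw [norm_mul, norm_pow, Complex.norm_intCast]
    have h3 : |(a n : ℝ)| ≤ B * ((n : ℝ) + 1) ^ B := by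
      rw [← Int.cast_abs]
      exact_mod_cast ha n
    have h4 : ‖τ‖ = q * ρ := by rw [hq]; field_simp
    calc |(a n : ℝ)| * ‖τ‖ ^ n ≤ (B * ((n : ℝ) + 1) ^ B) * ‖τ‖ ^ n := by gcongr
      _ = B * (((n : ℝ) + 1) ^ B * q ^ n) * ρ ^ n := by rw [h4, mul_pow]; ring
      _ ≤ B * K₂ * ρ ^ n := by
          gcongr
          exact hK₂ n
  have hsh : HasSum (fun n => (a (n + L) : ℂ) * τ ^ (n + L))
      (x - ∑ n ∈ range L, (a n : ℂ) * τ ^ n) :=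
    (hasSum_nat_add_iff' L).2 hx
  have hgeo : HasSum (fun n => B * K₂ * ρ ^ L * ρ ^ n) (B * K₂ * ρ ^ L * (1 - ρ)⁻¹) :=
    (hasSum_geometric_of_lt_one hρ0.le hρ1).mul_left _
  have h5 := hsh.norm_le_of_bounded hgeo (fun n => by
    refine (hterm (n + L)).trans (le_of_eq ?_)
    rw [pow_add]
    ring)
  refine h5.trans ?_
  rw [add_mul, one_mul]
  have h6 : 0 ≤ ρ ^ L := by positivity
  have h7 : B * K₂ * ρ ^ L * (1 - ρ)⁻¹ = B * K₂ / (1 - ρ) * ρ ^ L := by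
    rw [div_eq_mul_inv]
    ring
  rw [h7]
  linarith

lemma pow_sub (x y : ℂ) (W : ℝ) (hW : 1 ≤ W) (hx : ‖x‖ ≤ W) (hy : ‖y‖ ≤ W) (j : ℕ) :
    ‖x ^ j - y ^ j‖ ≤ j * W ^ j * ‖x - y‖ := by
  induction j with
  | zero => simp
  | succ j ih =>
    have h1 : x ^ (j + 1) - y ^ (j + 1) = x * (x ^ j - y ^ j) + y ^ j * (x - y) := by ring
    rw [h1]
    refine (norm_add_le _ _).trans ?_
    rw [norm_mul, norm_mul, norm_pow]
    have h2 : ‖x‖ * ‖x ^ j - y ^ j‖ ≤ W * (j * W ^ j * ‖x - y‖) := by gcongr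
    have h3 : ‖y‖ ^ j * ‖x - y‖ ≤ W ^ (j + 1) * ‖x - y‖ := by
      gcongr
      exact (pow_le_pow_left₀ (norm_nonneg _) hy j).trans (pow_le_pow_right₀ hW (by omega))
    calc ‖x‖ * ‖x ^ j - y ^ j‖ + ‖y‖ ^ j * ‖x - y‖
        ≤ W * (j * W ^ j * ‖x - y‖) + W ^ (j + 1) * ‖x - y‖ := by linarith
      _ = _ := by push_cast; ring

end Pool.Agent.Y30.AB
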